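import Pool.Agent.Helper28.EX.Exi

/-!
# Solutions in `𝔽_p⟦t⟧` give integral solutions
-/

set_option autoImplicit false

universe u w

namespace Pool.Agent.Helper28.EX

variable {K : Type u} {Γ : Type w} [Field K] [LinearOrderedCommGroupWithZero Γ] {v : Valuation K Γ}
  {p : ℕ} [hp : Fact p.Prime] {t : K} [CharP K p]

/-- sums `∑ t ^ i * c i ^ p` -/
def PB (F : Subfield K) (t : K) (p : ℕ) (x : K) : Prop :=
  ∃ c : ℕ → K, (∀ i, c i ∈ F) ∧ x = ∑ i ∈ Finset.range p, t ^ i * c i ^ p

theorem PB.add {F : Subfield K} {x y : K} (hx : PB F t p x) (hy : PB F t p y) :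
    PB F t p (x + y) := by
  obtain ⟨c, hc, rfl⟩ := hx
  obtain ⟨d, hd, rfl⟩ := hy
  refine ⟨fun i => c i + d i, fun i => F.add_mem (hc i) (hd i), ?_⟩
  rw [← Finset.sum_add_distrib]
  refine Finset.sum_congr rfl fun i _ => ?_
  rw [add_pow_char, mul_add]

omit [CharP K p] in
theorem PB.zero (F : Subfield K) : PB F t p 0 := by
  refine ⟨fun _ => 0, fun _ => F.zero_mem, ?_⟩
  rw [Finset.sum_eq_zero]
  intro i _
  rw [zero_pow hp.out.ne_zero, mul_zero]

omit hp [CharP K p] in
theorem PB.mulp {F : Subfield K} {x d : K} (hx : PB F t p x) (hd : d ∈ F) :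
    PB F t p (d ^ p * x) := by
  obtain ⟨c, hc, rfl⟩ := hx
  refine ⟨fun i => d * c i, fun i => F.mul_mem hd (hc i), ?_⟩
  rw [Finset.mul_sum]
  refine Finset.sum_congr rfl fun i _ => ?_
  ring

omit [CharP K p] in
theorem PB.mult {F : Subfield K} (htF : t ∈ F) {x : K} (hx : PB F t p x) :
    PB F t p (t * x) := by
  obtain ⟨c, hc, rfl⟩ := hx
  obtain ⟨q, rfl⟩ : ∃ q, p = q + 1 := ⟨p - 1, by have := hp.out.pos; omega⟩
  refine ⟨fun i => if i = 0 then t * c q else c (i - 1), fun i => ?_, ?_⟩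
  · change (if i = 0 then t * c q else c (i - 1)) ∈ F
    by_cases hi : i = 0
    · rw [if_pos hi]
      exact F.mul_mem htF (hc q)
    · rw [if_neg hi]
      exact hc _
  · rw [Finset.sum_range_succ' (fun i => t ^ i * (if i = 0 then t * c q else c (i - 1)) ^ (q + 1)),
      Finset.sum_range_succ, mul_add, Finset.mul_sum]
    congr 1
    · refine Finset.sum_congr rfl fun i _ => ?_
      rw [if_neg (Nat.succ_ne_zero i), Nat.add_sub_cancel]
      ring
    · rw [if_pos rfl]
      ring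

omit [CharP K p] in
theorem PB.one (F : Subfield K) : PB F t p 1 := by
  refine ⟨fun i => if i = 0 then 1 else 0, fun i => ?_, ?_⟩
  · change (if i = 0 then (1 : K) else 0) ∈ F
    by_cases hi : i = 0
    · rw [if_pos hi]
      exact F.one_mem
    · rw [if_neg hi]
      exact F.zero_mem
  · rw [Finset.sum_eq_single 0]
    · simp
    · intro i _ hi
      change t ^ i * (if i = 0 then (1 : K) else 0) ^ p = 0
      rw [if_neg hi, zero_pow hp.out.ne_zero, mul_zero]
    · intro h
      exact absurd (Finset.mem_range.2 hp.out.pos) h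

theorem PB.mul {F : Subfield K} (htF : t ∈ F) {x y : K} (hx : PB F t p x) (hy : PB F t p y) :
    PB F t p (x * y) := by
  obtain ⟨c, hc, rfl⟩ := hx
  rw [Finset.sum_mul]
  refine Finset.sum_induction _ (PB F t p) (fun _ _ => PB.add) (PB.zero F) fun i hi => ?_
  clear hi
  have h1 : t ^ i * c i ^ p * y = t ^ i * (c i ^ p * y) := by ring
  rw [h1]
  have h2 : PB F t p (c i ^ p * y) := hy.mulp (hc i)
  generalize c i ^ p * y = w at h2
  clear h1
  induction i with
  | zero => rwa [pow_zero, one_mul]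
  | succ i ih =>
    rw [pow_succ', mul_assoc]
    exact ih.mult htF

theorem PB.pow {F : Subfield K} (htF : t ∈ F) {x : K} (hx : PB F t p x) (k : ℕ) :
    PB F t p (x ^ k) := by
  induction k with
  | zero =>
    rw [pow_zero]
    exact PB.one F
  | succ k ih =>
    rw [pow_succ]
    exact ih.mul htF hx

theorem PB.inv {F : Subfield K} (htF : t ∈ F) {x : K} (hxF : x ∈ F) (hx : PB F t p x) :
    PB F t p x⁻¹ := by
  rcases eq_or_ne x 0 with rfl | hx0
  · rw [inv_zero]
    exact PB.zero F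
  · have h1 : x⁻¹ = x⁻¹ ^ p * x ^ (p - 1) := by
      obtain ⟨k, hk⟩ : ∃ k, p = k + 1 := ⟨p - 1, by have := hp.out.pos; omega⟩
      rw [hk, Nat.add_sub_cancel, pow_succ', mul_assoc, ← mul_pow, inv_mul_cancel₀ hx0, one_pow,
        mul_one]
    rw [h1]
    exact (hx.pow htF _).mulp (F.inv_mem hxF)

theorem PB.neg {F : Subfield K} {x : K} (hx : PB F t p x) :
    PB F t p (-x) := by
  obtain ⟨c, hc, rfl⟩ := hx
  refine ⟨fun i => -c i, fun i => F.neg_mem (hc i), ?_⟩
  rw [← Finset.sum_neg_distrib]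
  refine Finset.sum_congr rfl fun i _ => ?_
  have h1 : (-c i) ^ p = -(c i ^ p) := by
    have h2 := add_pow_char (c i) (-c i) p
    rw [add_neg_cancel, zero_pow hp.out.ne_zero] at h2
    exact (neg_eq_of_add_eq_zero_right h2.symm).symm
  rw [h1, mul_neg]

theorem pb_closure (x : K) (hx : x ∈ Subfield.closure {t}) :
    PB (Subfield.closure {t}) t p x := by
  have htF : t ∈ Subfield.closure {t} := Subfield.subset_closure rfl
  induction hx using Subfield.closure_induction with
  | mem x hx =>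
    obtain rfl : x = t := hx
    have h1 := (PB.one (t := x) (p := p) (Subfield.closure {x})).mult htF
    rwa [mul_one] at h1
  | one => exact PB.one _
  | add x y _ _ h1 h2 => exact h1.add h2
  | neg x _ h1 => exact h1.neg
  | inv x hx h1 => exact h1.inv htF hx
  | mul x y _ _ h1 h2 => exact h1.mul htF h2

/-- evaluation of polynomials over `𝔽_p` at `t` -/
noncomputable abbrev ev (p : ℕ) (t : K) [CharP K p] : Polynomial (ZMod p) →+* K :=
  Polynomial.eval₂RingHom (zm p K) t

theorem ev_le (hU : Unif p v t) (f : Polynomial (ZMod p)) : v (ev p t f) ≤ 1 := by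
  change v (Polynomial.eval₂ (zm p K) t f) ≤ 1
  rw [Polynomial.eval₂_eq_sum_range]
  refine v.map_sum_le fun i _ => ?_
  rw [map_mul, map_pow]
  exact mul_le_one' (v_zm_le _) (pow_le_one₀ zero_le hU.t1.le)

theorem ev_unit (hU : Unif p v t) (f : Polynomial (ZMod p)) (hf : f.coeff 0 ≠ 0) :
    v (ev p t f) = 1 := by
  have h1 : ev p t f = zm p K (f.coeff 0) + ev p t f.divX * t := by
    conv_lhs => rw [← Polynomial.divX_mul_X_add f]
    rw [map_add, map_mul]
    simp only [Polynomial.coe_eval₂RingHom, Polynomial.eval₂_X, Polynomial.eval₂_C]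
    ring
  rw [h1, v.map_add_eq_of_lt_left, v_zm _ hf]
  rw [v_zm _ hf, map_mul]
  calc _ ≤ 1 * v t := mul_le_mul_left (ev_le hU _) _
    _ < 1 := by rw [one_mul]; exact hU.t1

theorem ev_val (hU : Unif p v t) (f : Polynomial (ZMod p)) (k : ℕ) (h0 : ∀ d < k, f.coeff d = 0) :
    v (ev p t f) ≤ v t ^ k ∧ (f.coeff k ≠ 0 → v (ev p t f) = v t ^ k) := by
  obtain ⟨g, rfl⟩ := Polynomial.X_pow_dvd_iff.2 h0
  have h1 : ev p t (Polynomial.X ^ k * g) = t ^ k * ev p t g := by
    rw [map_mul, map_pow]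
    simp only [Polynomial.coe_eval₂RingHom, Polynomial.eval₂_X]
  rw [h1, map_mul, map_pow]
  constructor
  · calc _ ≤ v t ^ k * 1 := mul_le_mul_right (ev_le hU g) _
      _ = _ := mul_one _
  · intro h2
    rw [ev_unit hU g, mul_one]
    have h3 : (Polynomial.X ^ k * g).coeff (0 + k) = g.coeff 0 := Polynomial.coeff_X_pow_mul g k 0
    rw [zero_add] at h3
    rwa [h3] at h2

theorem ev_arch (hU : Unif p v t) (f : Polynomial (ZMod p)) (hf : f ≠ 0) :
    ∃ N, v (ev p t f) = v t ^ N := by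
  classical
  have h1 : ∃ k, f.coeff k ≠ 0 := by
    by_contra hno
    push Not at hno
    exact hf (Polynomial.ext fun k => by rw [hno, Polynomial.coeff_zero])
  refine ⟨Nat.find h1, (ev_val hU f _ fun d hd => ?_).2 (Nat.find_spec h1)⟩
  exact not_not.1 (Nat.find_min h1 hd)

theorem mem_ring_closure (x : K) (hx : x ∈ Subring.closure {t}) : ∃ f, x = ev p t f := by
  induction hx using Subring.closure_induction with
  | mem x hx =>
    obtain rfl : x = t := hx
    exact ⟨Polynomial.X, by simp⟩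
  | zero => exact ⟨0, (map_zero _).symm⟩
  | one => exact ⟨1, (map_one _).symm⟩
  | add x y _ _ h1 h2 =>
    obtain ⟨f, rfl⟩ := h1
    obtain ⟨g, rfl⟩ := h2
    exact ⟨f + g, (map_add _ _ _).symm⟩
  | neg x _ h1 =>
    obtain ⟨f, rfl⟩ := h1
    exact ⟨-f, (map_neg _ _).symm⟩
  | mul x y _ _ h1 h2 =>
    obtain ⟨f, rfl⟩ := h1
    obtain ⟨g, rfl⟩ := h2
    exact ⟨f * g, (map_mul _ _ _).symm⟩

theorem arch (hU : Unif p v t) (x : K) (hx : x ∈ Subfield.closure {t}) (hx0 : x ≠ 0) :
    ∃ N, v t ^ N ≤ v x := by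
  obtain ⟨y, hy, z, hz, rfl⟩ := Subfield.mem_closure_iff.1 hx
  obtain ⟨f, rfl⟩ := mem_ring_closure (p := p) y hy
  obtain ⟨g, rfl⟩ := mem_ring_closure (p := p) z hz
  have hf : f ≠ 0 := by
    rintro rfl
    rw [map_zero, zero_div] at hx0
    exact hx0 rfl
  have hg : ev p t g ≠ 0 := by
    intro h
    rw [h, div_zero] at hx0
    exact hx0 rfl
  obtain ⟨N, hN⟩ := ev_arch hU f hf
  refine ⟨N, ?_⟩
  rw [map_div₀, hN, le_div_iff₀ (zero_lt_iff.2 ((Valuation.ne_zero_iff v).2 hg))]
  calc _ ≤ v t ^ N * 1 := mul_le_mul_right (ev_le hU g) _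
    _ = _ := mul_one _

omit hp in
/-- congruent points have congruent values -/
theorem cong {R : Type u} {A : Type w} [CommRing R] [CommRing A] (f : A →+* R) (I : Ideal R) {n : ℕ}
    (a b : Fin n → R) (hab : ∀ k, a k - b k ∈ I) (h : MvPolynomial (Fin n) A) :
    MvPolynomial.eval₂ f a h - MvPolynomial.eval₂ f b h ∈ I := by
  have h1 : ∀ c : Fin n → R, Ideal.Quotient.mk I (MvPolynomial.eval₂ f c h) =
      MvPolynomial.eval₂ ((Ideal.Quotient.mk I).comp f) (fun k => Ideal.Quotient.mk I (c k)) h :=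
    fun c => MvPolynomial.map_eval₂Hom f c (Ideal.Quotient.mk I) h
  rw [← Ideal.Quotient.eq, h1, h1]
  congr 1
  funext k
  exact Ideal.Quotient.eq.2 (hab k)

end Pool.Agent.Helper28.EX
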