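import Pool.Agent.Helper28.EX.Conv

/-!
# Solutions in `𝔽_p⟦t⟧` give integral solutions, continued
-/

set_option autoImplicit false

universe u w

namespace Pool.Agent.Helper28.EX

variable {K : Type u} {Γ : Type w} [Field K] [LinearOrderedCommGroupWithZero Γ] {v : Valuation K Γ}
  {p : ℕ} [hp : Fact p.Prime] {t : K} [CharP K p]

/-- evaluation at `t`, in the valuation ring -/
noncomputable def evO (hU : Unif p v t) : Polynomial (ZMod p) →+* v.integer :=
  (ev p t).codRestrict v.integer fun f => ev_le hU f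

omit hp in
theorem zm_mem (F : Subfield K) (z : ZMod p) : zm p K z ∈ F := by
  obtain ⟨m, rfl⟩ := ZMod.intCast_surjective z
  rw [map_intCast]
  exact intCast_mem F m

theorem ev_mem (f : Polynomial (ZMod p)) : ev p t f ∈ (Subfield.closure {t} : Subfield K) := by
  have htF : t ∈ (Subfield.closure {t} : Subfield K) := Subfield.subset_closure rfl
  induction f using Polynomial.induction_on' with
  | add f g hf hg =>
    rw [map_add]
    exact add_mem hf hg
  | monomial k z =>
    have h1 : ev p t (Polynomial.monomial k z) = zm p K z * t ^ k := Polynomial.eval₂_monomial _ _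
    rw [h1]
    exact mul_mem (zm_mem _ z) (pow_mem htF k)

/-- evaluation at `t`, in the field generated by `t` -/
noncomputable def evF (p : ℕ) [Fact p.Prime] (t : K) [CharP K p] :
    Polynomial (ZMod p) →+* (Subfield.closure {t} : Subfield K) :=
  (ev p t).codRestrict (Subfield.closure {t} : Subfield K) ev_mem

theorem th_evO (hU : Unif p v t) :
    (th hU).comp (evO hU) = Polynomial.coeToPowerSeries.ringHom := by
  apply Polynomial.ringHom_ext
  · intro z
    have h1 : ((th hU).comp (evO hU)).comp Polynomial.C =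
        (Polynomial.coeToPowerSeries.ringHom (R := ZMod p)).comp Polynomial.C :=
      RingHom.ext_zmod _ _
    exact RingHom.congr_fun h1 z
  · have h1 : evO hU Polynomial.X = tO hU := Subtype.ext (by
      change ev p t Polynomial.X = t
      simp)
    rw [RingHom.comp_apply, h1, th_t]
    simp

/-- a solution in `𝔽_p⟦t⟧` gives an integral solution -/
theorem conv (hH : Hens v) (hU : Unif p v t) {n : ℕ} {κ : Type} [Finite κ]
    (h : κ → MvPolynomial (Fin n) (Polynomial (ZMod p)))
    (g : MvPolynomial (Fin n) (Polynomial (ZMod p))) (a : Fin n → PowerSeries (ZMod p))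
    (ha : ∀ j, MvPolynomial.eval₂ Polynomial.coeToPowerSeries.ringHom a (h j) = 0)
    (hg : MvPolynomial.eval₂ Polynomial.coeToPowerSeries.ringHom a g ≠ 0) :
    ∃ b : Fin n → K, (∀ k, v (b k) ≤ 1) ∧ (∀ j, MvPolynomial.eval₂ (ev p t) b (h j) = 0) ∧
      ∃ N, v (MvPolynomial.eval₂ (ev p t) b g) = v t ^ N := by
  classical
  have hvt := v_t_pos hU
  -- the order of `g`
  have hG : ∃ k, PowerSeries.coeff k (MvPolynomial.eval₂ Polynomial.coeToPowerSeries.ringHom a g) ≠
      0 := by
    by_contra hno
    push Not at hno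
    exact hg (PowerSeries.ext fun k => by rw [hno, map_zero])
  set M := Nat.find hG with hM
  have hM1 := Nat.find_spec hG
  have hM0 : ∀ d < M, PowerSeries.coeff d (MvPolynomial.eval₂
      Polynomial.coeToPowerSeries.ringHom a g) = 0 := fun d hd => not_not.1 (Nat.find_min hG hd)
  rw [← hM] at hM1
  -- strong approximation
  have htF : t ∈ Subfield.closure {t} := Subfield.subset_closure rfl
  obtain ⟨α, hαF, hα0, hα⟩ := sap (F := Subfield.closure {t}) hH hU htF
    (fun x hx => by
      obtain ⟨c, hc, h1⟩ := pb_closure (p := p) x hx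
      exact ⟨fun i => c i, fun i => hc i, by rw [h1, Finset.sum_range]⟩)
    (fun j => MvPolynomial.map (evF p t) (h j)) (t ^ (M + 1)) (Subfield.pow_mem _ htF _)
    (pow_ne_zero _ hU.t0) (by rw [map_pow]; exact pow_le_one₀ zero_le hU.t1.le)
  have e1 : ∀ (b : Fin n → K) (f : MvPolynomial (Fin n) (Polynomial (ZMod p))),
      MvPolynomial.aeval b (MvPolynomial.map (evF p t) f) = MvPolynomial.eval₂ (ev p t) b f := by
    intro b f
    rw [MvPolynomial.aeval_def, MvPolynomial.eval₂_map]
    rfl
  simp only [e1] at hα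
  obtain ⟨N0, hN0⟩ := arch hU α hαF hα0
  set N := max N0 (M + 1) with hN
  have hNN0 : N0 ≤ N := le_max_left _ _
  have hNM : M + 1 ≤ N := le_max_right _ _
  -- truncation
  let aN : Fin n → Polynomial (ZMod p) := fun k => PowerSeries.trunc N (a k)
  have e2 : ∀ f : MvPolynomial (Fin n) (Polynomial (ZMod p)),
      ev p t (MvPolynomial.eval aN f) = MvPolynomial.eval₂ (ev p t) (fun k => ev p t (aN k)) f := by
    intro f
    have h1 : ev p t (MvPolynomial.eval₂Hom (RingHom.id _) aN f) = _ :=
      MvPolynomial.map_eval₂Hom (RingHom.id _) aN (ev p t) f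
    exact h1
  have e3 : ∀ f : MvPolynomial (Fin n) (Polynomial (ZMod p)), ∀ d < N,
      (MvPolynomial.eval aN f).coeff d = PowerSeries.coeff d
        (MvPolynomial.eval₂ Polynomial.coeToPowerSeries.ringHom a f) := by
    intro f d hd
    have h1 : Polynomial.coeToPowerSeries.ringHom (MvPolynomial.eval₂Hom (RingHom.id _) aN f) = _ :=
      MvPolynomial.map_eval₂Hom (RingHom.id _) aN Polynomial.coeToPowerSeries.ringHom f
    have h2 := cong (Polynomial.coeToPowerSeries.ringHom (R := ZMod p))
      (Ideal.span {(PowerSeries.X : PowerSeries (ZMod p)) ^ N})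
      (fun k => Polynomial.coeToPowerSeries.ringHom (aN k)) a (fun k => by
        rw [Ideal.mem_span_singleton, PowerSeries.X_pow_dvd_iff]
        intro m hm
        rw [map_sub, sub_eq_zero]
        change PowerSeries.coeff m ((PowerSeries.trunc N (a k) : Polynomial (ZMod p)) :
          PowerSeries (ZMod p)) = _
        rw [Polynomial.coeff_coe, PowerSeries.coeff_trunc, if_pos hm]) f
    rw [Ideal.mem_span_singleton, PowerSeries.X_pow_dvd_iff] at h2
    have h3 := h2 d hd
    rw [map_sub, sub_eq_zero] at h3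
    rw [← h3]
    have h4 : MvPolynomial.eval₂ (Polynomial.coeToPowerSeries.ringHom (R := ZMod p))
        (fun k => Polynomial.coeToPowerSeries.ringHom (aN k)) f =
        ((MvPolynomial.eval aN f : Polynomial (ZMod p)) : PowerSeries (ZMod p)) := h1.symm
    rw [h4, Polynomial.coeff_coe]
  -- the approximate solution
  have h1 : ∀ j, v (MvPolynomial.eval₂ (ev p t) (fun k => ev p t (aN k)) (h j)) ≤ v α := by
    intro j
    rw [← e2]
    refine ((ev_val hU _ N fun d hd => ?_).1).trans (le_trans ?_ hN0)
    · rw [e3 _ d hd, ha j, map_zero]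
    · exact pow_le_pow_right_of_le_one' hU.t1.le hNN0
  obtain ⟨b, hb, hbh, hclose⟩ := hα (fun k => ev p t (aN k)) (fun k => ev_le hU _) h1
  refine ⟨b, hb, hbh, M, ?_⟩
  have h2 : v (MvPolynomial.eval₂ (ev p t) (fun k => ev p t (aN k)) g) = v t ^ M := by
    rw [← e2]
    refine (ev_val hU _ M fun d hd => ?_).2 ?_
    · rw [e3 _ d (by omega)]
      exact hM0 d hd
    · rw [e3 _ M (by omega)]
      exact hM1
  have h3 : v (MvPolynomial.eval₂ (ev p t) b g -
      MvPolynomial.eval₂ (ev p t) (fun k => ev p t (aN k)) g) ≤ v t ^ (M + 1) := by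
    have h4 := cong (evO hU) (v.leIdeal (v t ^ (M + 1))) (fun k => ⟨b k, hb k⟩)
      (fun k => ⟨ev p t (aN k), ev_le hU _⟩) (fun k => by
        rw [← map_pow]
        exact hclose k) g
    have h5 : ∀ (c : Fin n → K) (hc : ∀ k, v (c k) ≤ 1),
        ((MvPolynomial.eval₂ (evO hU) (fun k => (⟨c k, hc k⟩ : v.integer)) g : v.integer) : K) =
          MvPolynomial.eval₂ (ev p t) c g := by
      intro c hc
      exact MvPolynomial.map_eval₂Hom (evO hU) (fun k => (⟨c k, hc k⟩ : v.integer))
        v.integer.subtype g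
    rw [← h5 b hb, ← h5 _ (fun k => ev_le hU (aN k))]
    exact h4
  have h4 : MvPolynomial.eval₂ (ev p t) b g = MvPolynomial.eval₂ (ev p t)
      (fun k => ev p t (aN k)) g + (MvPolynomial.eval₂ (ev p t) b g -
      MvPolynomial.eval₂ (ev p t) (fun k => ev p t (aN k)) g) := by ring
  rw [h4, v.map_add_eq_of_lt_left, h2]
  rw [h2]
  exact lt_of_le_of_lt h3 (pow_lt_pow_right_of_lt_one₀ hvt hU.t1 (Nat.lt_succ_self M))

end Pool.Agent.Helper28.EX
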