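import Mathlib

/-!
# Extremal valued fields: definitions

Valuations are written multiplicatively: `v x ≤ 1` says that `x` lies in the valuation ring `O`,
and a large additive value is a small `v`.
-/

set_option autoImplicit false

universe u w

namespace Pool.Agent.Helper28.EX

variable {K : Type u} {Γ : Type w} [Field K] [LinearOrderedCommGroupWithZero Γ]

/-- `(K, v)` is extremal: for every polynomial `f` in any number of variables over `K` some point
of the valuation ring minimises `v (f a)` (that is, the additive value of `f` has a maximum, which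
may be infinite). -/
def Extremal (v : Valuation K Γ) : Prop :=
  ∀ (n : ℕ) (f : MvPolynomial (Fin n) K), ∃ a : Fin n → K, (∀ i, v (a i) ≤ 1) ∧
    ∀ b : Fin n → K, (∀ i, v (b i) ≤ 1) → v (MvPolynomial.eval a f) ≤ v (MvPolynomial.eval b f)

/-- a form of Hensel's lemma -/
def Hens (v : Valuation K Γ) : Prop :=
  ∀ G : Polynomial K, G.coeff 1 = 1 → (∀ k, k ≠ 1 → v (G.coeff k) < 1) →
    ∃ y, v y ≤ 1 ∧ G.eval y = 0

/-- `t` is a uniformizer: `v t` is the largest value below one; the residue field is the prime
field (every integral element is congruent to an integer), and the value group is generated by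
`v t` and the `p`-th powers (this holds if it is a `ℤ`-group) -/
structure Unif (p : ℕ) (v : Valuation K Γ) (t : K) : Prop where
  t0 : t ≠ 0
  t1 : v t < 1
  max : ∀ x, v x < 1 → v x ≤ v t
  res : ∀ x, v x ≤ 1 → ∃ m : ℤ, v (x - m) < 1
  grp : ∀ x, x ≠ 0 → ∃ (i : ℕ) (y : K), i < p ∧ v x = v (t ^ i * y ^ p)

end Pool.Agent.Helper28.EX
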