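import Pool.Agent.Helper28.EX.Form

/-!
# The reduction of the valuation ring to `𝔽_p⟦t⟧`
-/

set_option autoImplicit false

universe u w

namespace Pool.Agent.Helper28.EX

variable {K : Type u} {Γ : Type w} [Field K] [LinearOrderedCommGroupWithZero Γ] {v : Valuation K Γ}
  {p : ℕ} [hp : Fact p.Prime] {t : K} [CharP K p]

theorem dig_exists (hU : Unif p v t) (x : v.integer) : ∃ z : ZMod p, v (x - zm p K z) < 1 := by
  obtain ⟨m, hm⟩ := hU.res x x.2
  exact ⟨m, by rwa [map_intCast]⟩

/-- the constant digit -/
noncomputable def dig (hU : Unif p v t) (x : v.integer) : ZMod p := (dig_exists hU x).choose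

theorem dig_spec (hU : Unif p v t) (x : v.integer) : v (x - zm p K (dig hU x)) < 1 :=
  (dig_exists hU x).choose_spec

theorem dig_eq (hU : Unif p v t) (x : v.integer) (z : ZMod p) (h : v (x - zm p K z) < 1) :
    dig hU x = z := by
  by_contra hne
  have h1 := v_zm (v := v) (K := K) (dig hU x - z) (sub_ne_zero.2 hne)
  have h2 : zm p K (dig hU x - z) = (x - zm p K z) - (x - zm p K (dig hU x)) := by
    rw [map_sub]
    ring
  rw [h2] at h1
  exact absurd h1 (v.map_sub_lt h (dig_spec hU x)).ne

/-- the shift -/
noncomputable def shf (hU : Unif p v t) (x : v.integer) : v.integer :=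
  ⟨(x - zm p K (dig hU x)) / t, by
    rw [Valuation.mem_integer_iff, map_div₀]
    exact div_le_one_of_le₀ (hU.max _ (dig_spec hU x)) zero_le⟩

theorem shf_spec (hU : Unif p v t) (x : v.integer) : (x : K) = zm p K (dig hU x) + t * shf hU x := by
  change (x : K) = zm p K (dig hU x) + t * ((x - zm p K (dig hU x)) / t)
  rw [mul_div_cancel₀ _ hU.t0]
  ring

theorem shf_eq (hU : Unif p v t) (x y : v.integer) (z : ZMod p) (h : (x : K) = zm p K z + t * y) :
    dig hU x = z ∧ shf hU x = y := by
  have h1 : dig hU x = z := by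
    apply dig_eq
    rw [h, add_sub_cancel_left, map_mul]
    calc v t * v y ≤ v t * 1 := mul_le_mul_right y.2 _
      _ < 1 := by rw [mul_one]; exact hU.t1
  refine ⟨h1, Subtype.ext ?_⟩
  have h2 := shf_spec hU x
  rw [h1, h] at h2
  exact (mul_left_cancel₀ hU.t0 (add_left_cancel h2)).symm

/-- the power series of an integral element -/
noncomputable def ser (hU : Unif p v t) (x : v.integer) : PowerSeries (ZMod p) :=
  PowerSeries.mk fun k => dig hU ((shf hU)^[k] x)

theorem ser_zero (hU : Unif p v t) (x : v.integer) : PowerSeries.coeff 0 (ser hU x) = dig hU x := by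
  rw [ser, PowerSeries.coeff_mk]
  rfl

theorem ser_succ (hU : Unif p v t) (x : v.integer) (k : ℕ) :
    PowerSeries.coeff (k + 1) (ser hU x) = PowerSeries.coeff k (ser hU (shf hU x)) := by
  rw [ser, ser, PowerSeries.coeff_mk, PowerSeries.coeff_mk, Function.iterate_succ_apply]

theorem ser_eq (hU : Unif p v t) (x : v.integer) :
    ser hU x = PowerSeries.C (dig hU x) + PowerSeries.X * ser hU (shf hU x) := by
  ext k
  cases k with
  | zero =>
    rw [ser_zero, map_add, PowerSeries.coeff_zero_X_mul, PowerSeries.coeff_zero_C, add_zero]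
  | succ k =>
    rw [ser_succ, map_add, PowerSeries.coeff_succ_X_mul, PowerSeries.coeff_C,
      if_neg (Nat.succ_ne_zero k), zero_add]

/-- constants as integral elements -/
noncomputable def zi (v : Valuation K Γ) (p : ℕ) [hp : Fact p.Prime] [CharP K p] (z : ZMod p) :
    v.integer := ⟨zm p K z, v_zm_le z⟩

theorem da (hU : Unif p v t) (x y : v.integer) :
    dig hU (x + y) = dig hU x + dig hU y ∧ shf hU (x + y) = shf hU x + shf hU y := by
  apply shf_eq
  push_cast
  rw [map_add]
  linear_combination shf_spec hU x + shf_spec hU y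

theorem dm (hU : Unif p v t) (x y : v.integer) :
    dig hU (x * y) = dig hU x * dig hU y ∧
      shf hU (x * y) = shf hU x * y + zi v p (dig hU x) * shf hU y := by
  apply shf_eq
  have h1 : ((zi v p (dig hU x) : v.integer) : K) = zm p K (dig hU x) := rfl
  push_cast
  rw [h1, map_mul]
  linear_combination y * shf_spec hU x + zm p K (dig hU x) * shf_spec hU y

theorem dz (hU : Unif p v t) (z : ZMod p) :
    dig hU (zi v p z) = z ∧ shf hU (zi v p z) = 0 := by
  apply shf_eq
  have h1 : ((zi v p z : v.integer) : K) = zm p K z := rfl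
  rw [h1]
  simp

theorem ser_add (hU : Unif p v t) (k : ℕ) : ∀ x y : v.integer,
    PowerSeries.coeff k (ser hU (x + y)) = PowerSeries.coeff k (ser hU x) +
      PowerSeries.coeff k (ser hU y) := by
  induction k with
  | zero =>
    intro x y
    rw [ser_zero, ser_zero, ser_zero, (da hU x y).1]
  | succ k ih =>
    intro x y
    rw [ser_succ, ser_succ, ser_succ, (da hU x y).2, ih]

theorem ser_C (hU : Unif p v t) (z : ZMod p) (k : ℕ) : ∀ x : v.integer,
    PowerSeries.coeff k (ser hU (zi v p z * x)) = z * PowerSeries.coeff k (ser hU x) := by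
  induction k with
  | zero =>
    intro x
    rw [ser_zero, ser_zero, (dm hU _ x).1, (dz hU z).1]
  | succ k ih =>
    intro x
    rw [ser_succ, ser_succ, (dm hU _ x).2, (dz hU z).2, (dz hU z).1, zero_mul, zero_add, ih]

theorem ser_mul (hU : Unif p v t) (k : ℕ) : ∀ x y : v.integer,
    PowerSeries.coeff k (ser hU (x * y)) = PowerSeries.coeff k (ser hU x * ser hU y) := by
  induction k with
  | zero =>
    intro x y
    have h1 : PowerSeries.coeff 0 (ser hU x * ser hU y) =
        PowerSeries.coeff 0 (ser hU x) * PowerSeries.coeff 0 (ser hU y) := by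
      simp only [PowerSeries.coeff_zero_eq_constantCoeff_apply, map_mul]
    rw [ser_zero, (dm hU x y).1, h1, ser_zero, ser_zero]
  | succ k ih =>
    intro x y
    rw [ser_succ, (dm hU x y).2, ser_add, ih, ser_C, ser_eq hU x, add_mul, map_add,
      PowerSeries.coeff_C_mul, mul_assoc, PowerSeries.coeff_succ_X_mul, ser_succ hU y]
    ring

theorem ser_zero' (hU : Unif p v t) : ser hU 0 = 0 := by
  have h1 := ser_eq hU (zi v p 0)
  have h2 : (zi v p 0 : v.integer) = 0 := Subtype.ext (map_zero (zm p K))
  rw [(dz hU 0).1, (dz hU 0).2, h2, map_zero, zero_add] at h1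
  ext k
  induction k with
  | zero => rw [h1, PowerSeries.coeff_zero_X_mul]; rfl
  | succ k ih => rw [h1, PowerSeries.coeff_succ_X_mul, ih]; rfl

theorem ser_one (hU : Unif p v t) : ser hU 1 = 1 := by
  have h1 := ser_eq hU (zi v p 1)
  have h2 : (zi v p 1 : v.integer) = 1 := Subtype.ext (map_one (zm p K))
  rw [(dz hU 1).1, (dz hU 1).2, h2, map_one, ser_zero', mul_zero, add_zero] at h1
  exact h1

/-- the reduction `O → 𝔽_p⟦t⟧` -/
noncomputable def th (hU : Unif p v t) : v.integer →+* PowerSeries (ZMod p) where
  toFun := ser hU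
  map_one' := ser_one hU
  map_mul' x y := PowerSeries.ext fun k => ser_mul hU k x y
  map_zero' := ser_zero' hU
  map_add' x y := PowerSeries.ext fun k => ser_add hU k x y

/-- `t` as an integral element -/
def tO (hU : Unif p v t) : v.integer := ⟨t, hU.t1.le⟩

theorem th_t (hU : Unif p v t) : th hU (tO hU) = PowerSeries.X := by
  have h1 : dig hU (tO hU) = 0 ∧ shf hU (tO hU) = 1 := by
    apply shf_eq
    change t = zm p K 0 + t * 1
    rw [map_zero, zero_add, mul_one]
  change ser hU (tO hU) = _
  rw [ser_eq, h1.1, h1.2, ser_one, map_zero, zero_add, mul_one]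

theorem th_ker (hU : Unif p v t) (N : ℕ) : ∀ x : v.integer, th hU x = 0 → v x ≤ v t ^ N := by
  induction N with
  | zero =>
    intro x _
    rw [pow_zero]
    exact x.2
  | succ N ih =>
    intro x hx
    have h0 : ser hU x = 0 := hx
    have h1 : dig hU x = 0 := by
      rw [← ser_zero, h0, map_zero]
    have h2 : th hU (shf hU x) = 0 := by
      change ser hU (shf hU x) = 0
      ext k
      rw [← ser_succ, h0]
      rfl
    have h3 := shf_spec hU x
    rw [h1, map_zero, zero_add] at h3
    rw [h3, map_mul, pow_succ']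
    exact mul_le_mul_right (ih _ h2) _

end Pool.Agent.Helper28.EX
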