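import Pool.Agent.Helper28.EX.Main
import Pool.Agent.Helper28.EX.Theta

/-!
# Systems without solutions in `𝔽_p⟦t⟧`
-/

set_option autoImplicit false

universe u w

namespace Pool.Agent.Helper28.EX

variable {K : Type u} {Γ : Type w} [Field K] [LinearOrderedCommGroupWithZero Γ] {v : Valuation K Γ}
  {p : ℕ} [hp : Fact p.Prime] {t : K} [CharP K p]

/-- best approximation of a point by the image of the integral points of a variety -/
theorem best (hE : Extremal v) (hU : Unif p v t) {n m : ℕ} {κ : Type} [Fintype κ]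
    (h : κ → MvPolynomial (Fin n) K) (P : Fin m → MvPolynomial (Fin n) K) (z : Fin m → K)
    (hne : ∃ a : Fin n → K, (∀ i, v (a i) ≤ 1) ∧ ∀ j, MvPolynomial.eval a (h j) = 0) :
    ∃ a : Fin n → K, (∀ i, v (a i) ≤ 1) ∧ (∀ j, MvPolynomial.eval a (h j) = 0) ∧
      ∀ b : Fin n → K, (∀ i, v (b i) ≤ 1) → (∀ j, MvPolynomial.eval b (h j) = 0) →
        ∀ i, ∃ j, v (z i - MvPolynomial.eval a (P i)) ≤ v (z j - MvPolynomial.eval b (P j)) := by
  classical
  obtain ⟨Ψ, d, hd, hΨ⟩ := form (n := n) hU (Finset.univ : Finset (Fin m))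
    (fun j => MvPolynomial.C (z j) - P j)
  obtain ⟨a, ha, hah, hmin⟩ := ext_var hE hU h Ψ hne
  refine ⟨a, ha, hah, fun b hb hbh i => ?_⟩
  have h1 := hmin b hb hbh
  rw [hΨ, hΨ] at h1
  have h2 := (pow_le_pow_iff_left₀ zero_le zero_le hd.ne').1 h1
  simp only [map_sub, MvPolynomial.eval_C] at h2
  obtain ⟨j, _, hj⟩ := Finset.exists_max_image Finset.univ
    (fun j : Fin m => v (z j - MvPolynomial.eval b (P j))) ⟨i, Finset.mem_univ i⟩
  refine ⟨j, ?_⟩
  calc v (z i - MvPolynomial.eval a (P i)) ≤ _ :=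
        Finset.le_sup (f := fun j : Fin m => v (z j - MvPolynomial.eval a (P j)))
          (Finset.mem_univ i)
    _ ≤ _ := h2
    _ ≤ _ := Finset.sup_le fun k hk => hj k hk

/-- the largest value `v g` is also attained -/
theorem ext_max (hE : Extremal v) (hU : Unif p v t) {n : ℕ} {κ : Type} [Fintype κ]
    (h : κ → MvPolynomial (Fin n) K) (g : MvPolynomial (Fin n) K)
    (hne : ∃ a : Fin n → K, (∀ i, v (a i) ≤ 1) ∧ ∀ j, MvPolynomial.eval a (h j) = 0) :
    ∃ a : Fin n → K, (∀ i, v (a i) ≤ 1) ∧ (∀ j, MvPolynomial.eval a (h j) = 0) ∧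
      ∀ b : Fin n → K, (∀ i, v (b i) ≤ 1) → (∀ j, MvPolynomial.eval b (h j) = 0) →
        v (MvPolynomial.eval b g) ≤ v (MvPolynomial.eval a g) := by
  classical
  by_cases hg : ∀ a : Fin n → K, (∀ i, v (a i) ≤ 1) → (∀ j, MvPolynomial.eval a (h j) = 0) →
      MvPolynomial.eval a g = 0
  · obtain ⟨a, ha, hah⟩ := hne
    refine ⟨a, ha, hah, fun b hb hbh => ?_⟩
    rw [hg b hb hbh, map_zero]
    exact zero_le
  push Not at hg
  obtain ⟨a, ha, hah, hag⟩ := hg
  have e1 : ∀ (c : Fin (n + 1) → K) (f : MvPolynomial (Fin n) K),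
      MvPolynomial.eval c (MvPolynomial.rename Fin.succ f) =
        MvPolynomial.eval (fun i => c (Fin.succ i)) f := by
    intro c f
    rw [MvPolynomial.eval_rename]
    rfl
  obtain ⟨c, hc, hch, hmin⟩ := ext_var (n := n + 1) (κ := Option κ) hE hU
    (fun j => j.elim (MvPolynomial.rename Fin.succ g * MvPolynomial.X 0 -
      MvPolynomial.C (MvPolynomial.eval a g)) (fun j => MvPolynomial.rename Fin.succ (h j)))
    (MvPolynomial.X 0) ⟨Fin.cons 1 a, fun i => by
      refine Fin.cases ?_ (fun i => ?_) i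
      · rw [Fin.cons_zero, map_one]
      · rw [Fin.cons_succ]
        exact ha i, fun j => by
      cases j with
      | none =>
        change MvPolynomial.eval (Fin.cons 1 a) (MvPolynomial.rename Fin.succ g *
          MvPolynomial.X 0 - MvPolynomial.C (MvPolynomial.eval a g)) = 0
        rw [map_sub, map_mul, e1, MvPolynomial.eval_X, MvPolynomial.eval_C]
        simp
      | some j =>
        change MvPolynomial.eval (Fin.cons 1 a) (MvPolynomial.rename Fin.succ (h j)) = 0
        rw [e1]
        simpa using hah j⟩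
  have h0 : MvPolynomial.eval (fun i => c (Fin.succ i)) g * c 0 = MvPolynomial.eval a g := by
    have h1 := hch none
    change MvPolynomial.eval c (MvPolynomial.rename Fin.succ g *
          MvPolynomial.X 0 - MvPolynomial.C (MvPolynomial.eval a g)) = 0 at h1
    rw [map_sub, map_mul, e1, MvPolynomial.eval_X, MvPolynomial.eval_C] at h1
    exact sub_eq_zero.1 h1
  have hc0 : c 0 ≠ 0 := by
    intro h1
    rw [h1, mul_zero] at h0
    exact hag h0.symm
  refine ⟨fun i => c (Fin.succ i), fun i => hc _, fun j => ?_, fun b hb hbh => ?_⟩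
  · have h1 := hch (some j)
    change MvPolynomial.eval c (MvPolynomial.rename Fin.succ (h j)) = 0 at h1
    rwa [e1] at h1
  · by_contra hlt
    have hlt' := not_le.1 hlt
    set w := MvPolynomial.eval b g with hw
    have hw0 : w ≠ 0 := by
      intro h1
      rw [h1, map_zero] at hlt'
      exact not_lt_zero hlt'
    have hvw : 0 < v w := zero_lt_iff.2 ((Valuation.ne_zero_iff v).2 hw0)
    have hvag : 0 < v (MvPolynomial.eval a g) :=
      zero_lt_iff.2 ((Valuation.ne_zero_iff v).2 hag)
    have hag_le : v (MvPolynomial.eval a g) ≤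
        v (MvPolynomial.eval (fun i => c (Fin.succ i)) g) := by
      rw [← h0, map_mul]
      calc _ ≤ v (MvPolynomial.eval (fun i => c (Fin.succ i)) g) * 1 :=
            mul_le_mul_right (hc 0) _
        _ = _ := mul_one _
    have h2 : v (MvPolynomial.eval a g / w) ≤ 1 := by
      rw [map_div₀]
      exact div_le_one_of_le₀ (hag_le.trans hlt'.le) zero_le
    have h3 := hmin (Fin.cons (MvPolynomial.eval a g / w) b) (fun i => by
      refine Fin.cases ?_ (fun i => ?_) i
      · rw [Fin.cons_zero]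
        exact h2
      · rw [Fin.cons_succ]
        exact hb i) (fun j => by
      cases j with
      | none =>
        change MvPolynomial.eval (Fin.cons (MvPolynomial.eval a g / w) b)
          (MvPolynomial.rename Fin.succ g *
          MvPolynomial.X 0 - MvPolynomial.C (MvPolynomial.eval a g)) = 0
        rw [map_sub, map_mul, e1, MvPolynomial.eval_X, MvPolynomial.eval_C]
        simp only [Fin.cons_succ, Fin.cons_zero]
        rw [← hw, mul_div_cancel₀ _ hw0, sub_self]
      | some j =>
        change MvPolynomial.eval (Fin.cons (MvPolynomial.eval a g / w) b)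
          (MvPolynomial.rename Fin.succ (h j)) = 0
        rw [e1]
        simpa using hbh j)
    rw [MvPolynomial.eval_X, MvPolynomial.eval_X, Fin.cons_zero, map_div₀] at h3
    have h4 : v (MvPolynomial.eval a g) =
        v (MvPolynomial.eval (fun i => c (Fin.succ i)) g) * v (c 0) := by
      rw [← map_mul, h0]
    have h5 : v (MvPolynomial.eval a g) < v (MvPolynomial.eval a g) := by
      calc v (MvPolynomial.eval a g) =
          v (MvPolynomial.eval (fun i => c (Fin.succ i)) g) * v (c 0) := h4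
        _ < v w * v (c 0) := mul_lt_mul_of_pos_right hlt'
            (zero_lt_iff.2 ((Valuation.ne_zero_iff v).2 hc0))
        _ ≤ v w * (v (MvPolynomial.eval a g) / v w) := mul_le_mul_right h3 _
        _ = v (MvPolynomial.eval a g) := mul_div_cancel₀ _ hvw.ne'
    exact lt_irrefl _ h5

omit hp [CharP K p] in
theorem auto_le {σ : K ≃+* K} (hσ : ∀ x, v (σ x) ≤ 1 ↔ v x ≤ 1) (x y : K) :
    v (σ x) ≤ v (σ y) ↔ v x ≤ v y := by
  rcases eq_or_ne y 0 with rfl | hy
  · rw [map_zero, map_zero, le_zero_iff, le_zero_iff, Valuation.zero_iff, Valuation.zero_iff]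
    exact map_eq_zero_iff σ σ.injective
  · have h1 := hσ (x / y)
    have hσy : σ y ≠ 0 := (map_ne_zero_iff σ σ.injective).2 hy
    rw [map_div₀, map_div₀, map_div₀, div_le_one₀ (zero_lt_iff.2 ((Valuation.ne_zero_iff v).2 hσy)),
      div_le_one₀ (zero_lt_iff.2 ((Valuation.ne_zero_iff v).2 hy))] at h1
    exact h1

/-- **Systems without solutions in `𝔽_p⟦t⟧`.** -/
theorem gen (hE : Extremal v) (hU : Unif p v t) {n : ℕ} {κ A : Type} [Fintype κ] [CommRing A]
    (i : A →+* v.integer) (h : κ → MvPolynomial (Fin n) A) (g : MvPolynomial (Fin n) A)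
    (hne : ∃ b : Fin n → K, (∀ k, v (b k) ≤ 1) ∧
      (∀ j, MvPolynomial.eval₂ (v.integer.subtype.comp i) b (h j) = 0) ∧
      MvPolynomial.eval₂ (v.integer.subtype.comp i) b g ≠ 0)
    (hno : ∀ b : Fin n → PowerSeries (ZMod p),
      (∀ j, MvPolynomial.eval₂ ((th hU).comp i) b (h j) = 0) →
      MvPolynomial.eval₂ ((th hU).comp i) b g = 0) :
    ∃ b : Fin n → K, (∀ k, v (b k) ≤ 1) ∧
      (∀ j, MvPolynomial.eval₂ (v.integer.subtype.comp i) b (h j) = 0) ∧
      MvPolynomial.eval₂ (v.integer.subtype.comp i) b g ≠ 0 ∧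
      (∀ c : Fin n → K, (∀ k, v (c k) ≤ 1) →
        (∀ j, MvPolynomial.eval₂ (v.integer.subtype.comp i) c (h j) = 0) →
        v (MvPolynomial.eval₂ (v.integer.subtype.comp i) c g) ≤
          v (MvPolynomial.eval₂ (v.integer.subtype.comp i) b g)) ∧
      (∀ N : ℕ, v (MvPolynomial.eval₂ (v.integer.subtype.comp i) b g) < v t ^ N) ∧
      ∀ σ : K ≃+* K, (∀ x, v (σ x) ≤ 1 ↔ v x ≤ 1) → (∀ a, σ (i a) = i a) →
        ∀ x, v x = v (MvPolynomial.eval₂ (v.integer.subtype.comp i) b g) →
          v (σ x) = v (MvPolynomial.eval₂ (v.integer.subtype.comp i) b g) := by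
  classical
  have e1 : ∀ (b : Fin n → K) (f : MvPolynomial (Fin n) A),
      MvPolynomial.eval b (MvPolynomial.map (v.integer.subtype.comp i) f) =
        MvPolynomial.eval₂ (v.integer.subtype.comp i) b f := fun b f =>
    MvPolynomial.eval_map _ _ _
  obtain ⟨b1, hb1, hb1h, hb1g⟩ := hne
  obtain ⟨b, hb, hbh, hmax⟩ := ext_max hE hU
    (fun j => MvPolynomial.map (v.integer.subtype.comp i) (h j))
    (MvPolynomial.map (v.integer.subtype.comp i) g) ⟨b1, hb1, fun j => by rw [e1]; exact hb1h j⟩
  simp only [e1] at hbh hmax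
  have hbg : MvPolynomial.eval₂ (v.integer.subtype.comp i) b g ≠ 0 := by
    intro h1
    have h2 := hmax b1 hb1 hb1h
    rw [h1, map_zero, le_zero_iff, Valuation.zero_iff] at h2
    exact hb1g h2
  refine ⟨b, hb, hbh, hbg, hmax, fun N => ?_, fun σ hσ hσi x hx => ?_⟩
  · let b' : Fin n → v.integer := fun k => ⟨b k, hb k⟩
    have e2 : ∀ f : MvPolynomial (Fin n) A, ((MvPolynomial.eval₂ i b' f : v.integer) : K) =
        MvPolynomial.eval₂ (v.integer.subtype.comp i) b f := by
      intro f
      exact MvPolynomial.map_eval₂Hom i b' v.integer.subtype f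
    have e3 : ∀ f : MvPolynomial (Fin n) A, th hU (MvPolynomial.eval₂ i b' f) =
        MvPolynomial.eval₂ ((th hU).comp i) (fun k => th hU (b' k)) f := by
      intro f
      exact MvPolynomial.map_eval₂Hom i b' (th hU) f
    have h1 : th hU (MvPolynomial.eval₂ i b' g) = 0 := by
      rw [e3]
      apply hno
      intro j
      rw [← e3]
      have h2 : MvPolynomial.eval₂ i b' (h j) = 0 := Subtype.ext (by rw [e2, hbh j]; rfl)
      rw [h2, map_zero]
    have h3 := th_ker hU (N + 1) _ h1
    rw [e2] at h3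
    refine lt_of_le_of_lt h3 ?_
    exact pow_lt_pow_right_of_lt_one₀ (v_t_pos hU) hU.t1 (Nat.lt_succ_self N)
  · have e4 : ∀ (τ : K ≃+* K) (_ : ∀ a, τ (i a) = i a) (c : Fin n → K)
        (f : MvPolynomial (Fin n) A), τ (MvPolynomial.eval₂ (v.integer.subtype.comp i) c f) =
        MvPolynomial.eval₂ (v.integer.subtype.comp i) (fun k => τ (c k)) f := by
      intro τ hτ c f
      have h1 : (τ : K →+* K) (MvPolynomial.eval₂Hom (v.integer.subtype.comp i) c f) = _ :=
        MvPolynomial.map_eval₂Hom (v.integer.subtype.comp i) c (τ : K →+* K) f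
      have h2 : (τ : K →+* K).comp (v.integer.subtype.comp i) = v.integer.subtype.comp i :=
        RingHom.ext fun a => hτ a
      rw [h2] at h1
      exact h1
    have h5 : ∀ (τ : K ≃+* K), (∀ x, v (τ x) ≤ 1 ↔ v x ≤ 1) → (∀ a, τ (i a) = i a) →
        v (τ (MvPolynomial.eval₂ (v.integer.subtype.comp i) b g)) ≤
          v (MvPolynomial.eval₂ (v.integer.subtype.comp i) b g) := by
      intro τ hτ hτi
      rw [e4 τ hτi]
      refine hmax _ (fun k => (hτ _).2 (hb k)) fun j => ?_
      rw [← e4 τ hτi, hbh j, map_zero]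
    have h6 := h5 σ hσ hσi
    have hσ' : ∀ x, v (σ.symm x) ≤ 1 ↔ v x ≤ 1 := by
      intro x
      rw [← hσ (σ.symm x), RingEquiv.apply_symm_apply]
    have hσi' : ∀ a, σ.symm (i a) = i a := by
      intro a
      rw [RingEquiv.symm_apply_eq]
      exact (hσi a).symm
    have h7 := h5 σ.symm hσ' hσi'
    have h8 := (auto_le hσ (σ.symm (MvPolynomial.eval₂ (v.integer.subtype.comp i) b g))
      (MvPolynomial.eval₂ (v.integer.subtype.comp i) b g)).2 h7
    rw [RingEquiv.apply_symm_apply] at h8
    have h9 : v (σ (MvPolynomial.eval₂ (v.integer.subtype.comp i) b g)) =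
        v (MvPolynomial.eval₂ (v.integer.subtype.comp i) b g) := le_antisymm h6 h8
    rw [← h9]
    exact le_antisymm ((auto_le hσ _ _).2 hx.le) ((auto_le hσ _ _).2 hx.ge)

end Pool.Agent.Helper28.EX
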