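import Pool.Agent.Helper28.EX.PB

/-!
# A polynomial with the value `d * min`
-/

set_option autoImplicit false

universe u w

namespace Pool.Agent.Helper28.EX

variable {K : Type u} {Γ : Type w} [Field K] [LinearOrderedCommGroupWithZero Γ] {v : Valuation K Γ}
  {p : ℕ} [hp : Fact p.Prime] {t : K}

theorem exists_irred (p : ℕ) [hp : Fact p.Prime] : ∃ c : ZMod p, ∀ x : ZMod p, x * x + x + c ≠ 0 := by
  by_contra h
  push Not at h
  have hs : Function.Surjective (fun x : ZMod p => x * x + x) := by
    intro y
    obtain ⟨x, hx⟩ := h (-y)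
    exact ⟨x, by
      change x * x + x = y
      linear_combination hx⟩
  have hi := Finite.injective_iff_surjective.2 hs
  have h0 : (0 : ZMod p) = -1 := hi (by simp)
  have h1 : (1 : ZMod p) = 0 := by linear_combination h0
  exact one_ne_zero h1

/-- the prime field -/
abbrev zm (p : ℕ) (K : Type u) [Field K] [CharP K p] : ZMod p →+* K := ZMod.castHom (dvd_refl p) K

theorem v_zm [CharP K p] (z : ZMod p) (hz : z ≠ 0) : v (zm p K z) = 1 := by
  have h1 : v (zm p K z) ^ (p - 1) = 1 := by
    rw [← map_pow, ← map_pow, ZMod.pow_card_sub_one_eq_one hz, map_one, map_one]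
  have hp1 : p - 1 ≠ 0 := by
    have := hp.out.two_le
    omega
  exact (pow_eq_one_iff_of_nonneg zero_le hp1).1 h1

theorem v_zm_le [CharP K p] (z : ZMod p) : v (zm p K z) ≤ 1 := by
  rcases eq_or_ne z 0 with rfl | hz
  · rw [map_zero, map_zero]
    exact zero_le_one
  · exact (v_zm z hz).le

theorem v_norm (hU : Unif p v t) [CharP K p] (c : ZMod p) (hc : ∀ x : ZMod p, x * x + x + c ≠ 0)
    (x y : K) : v (x * x + x * y + zm p K c * (y * y)) = max (v x) (v y) ^ 2 := by
  rcases lt_or_ge (v y) (v x) with hlt | hle
  · have hx : 0 < v x := lt_of_le_of_lt zero_le hlt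
    rw [max_eq_left hlt.le, pow_two]
    have h1 : v (x * y) < v (x * x) := by
      rw [map_mul, map_mul]
      exact mul_lt_mul_of_pos_left hlt hx
    have h2 : v (zm p K c * (y * y)) < v (x * x) := by
      rw [map_mul, map_mul, map_mul]
      calc v (zm p K c) * (v y * v y) ≤ 1 * (v y * v y) := mul_le_mul_left (v_zm_le c) _
        _ = v y * v y := one_mul _
        _ ≤ v x * v y := mul_le_mul_left hlt.le _
        _ < v x * v x := mul_lt_mul_of_pos_left hlt hx
    have h3 : v (x * x + x * y) = v (x * x) := v.map_add_eq_of_lt_left h1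
    rw [v.map_add_eq_of_lt_left (by rw [h3]; exact h2), h3, map_mul]
  · rw [max_eq_right hle]
    rcases eq_or_ne y 0 with rfl | hy
    · rw [map_zero] at hle
      have hx : v x = 0 := le_antisymm hle zero_le
      rw [mul_zero, mul_zero, mul_zero, add_zero, add_zero, map_mul, hx, map_zero]
      simp
    · have hvy : v y ≠ 0 := (Valuation.ne_zero_iff v).2 hy
      have hu : v (x / y) ≤ 1 := by
        rw [map_div₀]
        exact div_le_one_of_le₀ hle zero_le
      obtain ⟨m, hm⟩ := hU.res _ hu
      have h1 : x * x + x * y + zm p K c * (y * y) =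
          (y * y) * (zm p K ((m : ZMod p) * m + m + c) + (x / y - m) * (x / y + m + 1)) := by
        have h2 : zm p K ((m : ZMod p) * m + m + c) = m * m + m + zm p K c := by
          rw [map_add, map_add, map_mul, map_intCast]
        rw [h2]
        field_simp
        ring
      have h2 : v ((x / y - m) * (x / y + m + 1)) < 1 := by
        have hm1 : v (m : K) ≤ 1 := by
          have h3 : (m : K) = x / y - (x / y - m) := by ring
          rw [h3]
          exact (v.map_sub _ _).trans (max_le hu hm.le)
        have h3 : v (x / y + m + 1) ≤ 1 :=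
          (v.map_add _ _).trans (max_le ((v.map_add _ _).trans (max_le hu hm1)) (by rw [map_one]))
        rw [map_mul]
        calc _ ≤ v (x / y - m) * 1 := mul_le_mul_right h3 _
          _ < 1 := by rw [mul_one]; exact hm
      have h3 : v (zm p K ((m : ZMod p) * m + m + c)) = 1 := v_zm _ (hc _)
      rw [h1, map_mul, v.map_add_eq_of_lt_left (by rw [h3]; exact h2), h3, mul_one, map_mul, pow_two]

/-- for finitely many polynomials `w j` there is a polynomial whose value is the power of the
largest of the values of the `w j` -/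
theorem form (hU : Unif p v t) [CharP K p] {n : ℕ} {κ : Type} (s : Finset κ)
    (w : κ → MvPolynomial (Fin n) K) : ∃ (Ψ : MvPolynomial (Fin n) K) (d : ℕ), 0 < d ∧
      ∀ a : Fin n → K, v (MvPolynomial.eval a Ψ) =
        (s.sup fun j => v (MvPolynomial.eval a (w j))) ^ d := by
  classical
  obtain ⟨c, hc⟩ := exists_irred p
  induction s using Finset.induction_on with
  | empty =>
    refine ⟨0, 1, one_pos, fun a => ?_⟩
    rw [map_zero, map_zero, Finset.sup_empty, pow_one]
    exact bot_eq_zero.symm
  | insert k s _ ih =>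
    obtain ⟨Ψ, d, hd, hΨ⟩ := ih
    refine ⟨w k ^ d * w k ^ d + w k ^ d * Ψ + MvPolynomial.C (zm p K c) * (Ψ * Ψ), d * 2,
      by omega, fun a => ?_⟩
    simp only [map_add, map_mul, map_pow, MvPolynomial.eval_C]
    rw [v_norm hU c hc, hΨ, Finset.sup_insert, map_pow, pow_mul]
    congr 1
    exact ((pow_left_mono d).map_max).symm

end Pool.Agent.Helper28.EX
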