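import Mathlib

/-!
# Existential sentences over a valued field: definitions
-/

set_option autoImplicit false

universe u w

namespace Pool.Agent.Results.MP_07fc42_lc.ExistentialGap

/-- `b` solves the system `h = 0, g ≠ 0`, whose coefficients are read through `i` -/
def Sol {A : Type} {R : Type u} [CommRing A] [CommRing R] {n r : ℕ} (i : A →+* R)
    (h : Fin r → MvPolynomial (Fin n) A) (g : MvPolynomial (Fin n) A) (b : Fin n → R) : Prop :=
  (∀ j, MvPolynomial.eval₂ i b (h j) = 0) ∧ MvPolynomial.eval₂ i b g ≠ 0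

variable {K : Type u} {Γ : Type w} [Field K] [LinearOrderedCommGroupWithZero Γ]

/-- the value of the polynomial `q` over `𝔽_p` at `t` -/
noncomputable def atT (p : ℕ) [CharP K p] (t : K) : Polynomial (ZMod p) →+* K :=
  Polynomial.eval₂RingHom (ZMod.castHom (dvd_refl p) K) t

/-- `s c` is the `t`-adic expansion of `i c`, for `c` in `A` -/
def Expansion {p : ℕ} [CharP K p] (v : Valuation K Γ) (t : K) {A : Type} [CommRing A]
    (i : A →+* K) (s : A →+* PowerSeries (ZMod p)) : Prop :=
  ∀ (c : A) (N : ℕ), v (i c - atT p t (PowerSeries.trunc N (s c))) ≤ v t ^ N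

/-- `v` takes an infinite value `γ = v x`, `x ≠ 0` (smaller than all powers of `v t`), which is the
largest value of `v g` on the integral solutions of the system, and which is therefore fixed by
all automorphisms of `(K, v)` over the coefficients -/
def Gap (v : Valuation K Γ) (t : K) {A : Type} [CommRing A] {n r : ℕ} (i : A →+* K)
    (h : Fin r → MvPolynomial (Fin n) A) (g : MvPolynomial (Fin n) A) : Prop :=
  ∃ x : K, x ≠ 0 ∧ (∀ N : ℕ, v x < v t ^ N) ∧
    (∃ b : Fin n → K, (∀ k, v (b k) ≤ 1) ∧ Sol i h g b ∧ MvPolynomial.eval₂ i b g = x) ∧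
    (∀ b : Fin n → K, (∀ k, v (b k) ≤ 1) → Sol i h g b → v (MvPolynomial.eval₂ i b g) ≤ v x) ∧
    ∀ σ : K ≃+* K, (∀ y, v (σ y) ≤ 1 ↔ v y ≤ 1) → (∀ c, σ (i c) = i c) →
      ∀ y, v y = v x → v (σ y) = v x

end Pool.Agent.Results.MP_07fc42_lc.ExistentialGap
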