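import Pool.Agent.Helper28.EX.Conv2
import Pool.Agent.Helper28.EX.GapDefs

/-!
# Extremal valued fields: existential sentences with a uniformizer, proofs
-/

set_option autoImplicit false

universe u w

namespace Pool.Agent.Results.MP_07fc42_lc.ExistentialGap

open Pool.Agent.Helper28.EX

variable {K : Type u} {Γ : Type w} [Field K] [LinearOrderedCommGroupWithZero Γ]

theorem th_expansion {p : ℕ} [Fact p.Prime] [CharP K p] {v : Valuation K Γ} {t : K}
    (hA : Unif p v t) {A : Type} [CommRing A] {i : A →+* K} {s : A →+* PowerSeries (ZMod p)}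
    (hs : Expansion v t i s) (hi : ∀ c, v (i c) ≤ 1) :
    (th hA).comp (i.codRestrict v.integer hi) = s := by
  refine RingHom.ext fun c => PowerSeries.ext fun d => ?_
  have h1 := hs c (d + 1)
  set q := PowerSeries.trunc (d + 1) (s c) with hq
  have ht0 : t ^ (d + 1) ≠ 0 := pow_ne_zero _ hA.t0
  have h2 : v ((i c - atT p t q) / t ^ (d + 1)) ≤ 1 := by
    rw [map_div₀, map_pow]
    exact div_le_one_of_le₀ h1 zero_le
  have h3 : i.codRestrict v.integer hi c = evO hA q +
      tO hA ^ (d + 1) * (⟨_, h2⟩ : v.integer) := by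
    apply Subtype.ext
    change i c = atT p t q + t ^ (d + 1) * ((i c - atT p t q) / t ^ (d + 1))
    rw [mul_div_cancel₀ _ ht0]
    ring
  rw [RingHom.comp_apply, h3, map_add, map_mul, map_pow, th_t, ← RingHom.comp_apply, th_evO,
    map_add, PowerSeries.coeff_X_pow_mul', if_neg (by omega), add_zero]
  change PowerSeries.coeff d ((q : Polynomial (ZMod p)) : PowerSeries (ZMod p)) = _
  rw [Polynomial.coeff_coe, hq, PowerSeries.coeff_trunc, if_pos (Nat.lt_succ_self d)]

theorem expansion_le {p : ℕ} [Fact p.Prime] [CharP K p] {v : Valuation K Γ} {t : K}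
    {A : Type} [CommRing A] {i : A →+* K} {s : A →+* PowerSeries (ZMod p)}
    (hs : Expansion v t i s) (c : A) : v (i c) ≤ 1 := by
  have h1 := hs c 0
  rw [pow_zero] at h1
  have h2 : PowerSeries.trunc 0 (s c) = 0 := by
    ext k
    rw [PowerSeries.coeff_trunc, if_neg (Nat.not_lt_zero k), Polynomial.coeff_zero]
  rwa [h2, map_zero, sub_zero] at h1

theorem main {p : ℕ} [Fact p.Prime] [CharP K p] (v : Valuation K Γ) (t : K)
    (hE : Extremal v) (hA : Unif p v t) (A : Type) [CommRing A] (i : A →+* K)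
    (s : A →+* PowerSeries (ZMod p)) (hs : Expansion v t i s) (n r : ℕ)
    (h : Fin r → MvPolynomial (Fin n) A) (g : MvPolynomial (Fin n) A)
    (hb : ∃ b : Fin n → K, (∀ k, v (b k) ≤ 1) ∧ Sol i h g b) :
    (∃ a : Fin n → PowerSeries (ZMod p), Sol s h g a) ∨ Gap v t i h g := by
  by_cases hno : ∃ a : Fin n → PowerSeries (ZMod p), Sol s h g a
  · exact Or.inl hno
  right
  have hi := expansion_le hs
  have hth := th_expansion hA hs hi
  obtain ⟨b0, hb0, hb0h, hb0g⟩ := hb
  obtain ⟨b, hb, hbh, hbg, hmax, hinf, hσ⟩ := gen hE hA (i.codRestrict v.integer hi) h g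
    ⟨b0, hb0, hb0h, hb0g⟩ (by
      rw [hth]
      intro a ha
      by_contra hg
      exact hno ⟨a, ha, hg⟩)
  exact ⟨MvPolynomial.eval₂ i b g, hbg, hinf, ⟨b, hb, ⟨hbh, hbg⟩, rfl⟩,
    fun c hc hcs => hmax c hc hcs.1, hσ⟩

theorem expansion_atT {p : ℕ} [Fact p.Prime] [CharP K p] {v : Valuation K Γ} {t : K}
    (hA : Unif p v t) :
    Expansion v t (atT p t) (Polynomial.coeToPowerSeries.ringHom (R := ZMod p)) := by
  intro c N
  rw [← map_sub]
  refine (ev_val hA _ N fun d hd => ?_).1
  rw [Polynomial.coeff_sub, PowerSeries.coeff_trunc, if_pos hd]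
  change c.coeff d - PowerSeries.coeff d ((c : Polynomial (ZMod p)) : PowerSeries (ZMod p)) = 0
  rw [Polynomial.coeff_coe, sub_self]

/-- another example of an expansion: `𝔽_p⟦t⟧` inside the valuation ring -/
theorem expansion_id {p : ℕ} [Fact p.Prime] [CharP K p] {v : Valuation K Γ} {t : K}
    (ι : PowerSeries (ZMod p) →+* K) (hι : ∀ f, v (ι f) ≤ 1) (hιt : ι PowerSeries.X = t) :
    Expansion v t ι (RingHom.id _) := by
  intro f N
  have h1 : atT p t = ι.comp (Polynomial.coeToPowerSeries.ringHom (R := ZMod p)) := by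
    apply Polynomial.ringHom_ext
    · intro z
      have h3 : (atT p t : Polynomial (ZMod p) →+* K).comp Polynomial.C =
          (ι.comp (Polynomial.coeToPowerSeries.ringHom (R := ZMod p))).comp Polynomial.C :=
        RingHom.ext_zmod _ _
      exact RingHom.congr_fun h3 z
    · rw [RingHom.comp_apply, Polynomial.coeToPowerSeries.ringHom_apply, Polynomial.coe_X, hιt]
      simp [atT]
  rw [h1, RingHom.comp_apply, ← map_sub]
  obtain ⟨q, hq⟩ : PowerSeries.X ^ N ∣ (RingHom.id (PowerSeries (ZMod p)) f -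
      Polynomial.coeToPowerSeries.ringHom (PowerSeries.trunc N (RingHom.id _ f))) := by
    rw [PowerSeries.X_pow_dvd_iff]
    intro d hd
    rw [map_sub, sub_eq_zero, RingHom.id_apply, Polynomial.coeToPowerSeries.ringHom_apply,
      Polynomial.coeff_coe, PowerSeries.coeff_trunc, if_pos hd]
  rw [RingHom.id_apply] at hq
  rw [RingHom.id_apply, hq, map_mul, map_pow, hιt, map_mul, map_pow]
  calc _ ≤ v t ^ N * 1 := mul_le_mul_right (hι q) _
    _ = _ := mul_one _

theorem final {p : ℕ} [Fact p.Prime] [CharP K p] (v : Valuation K Γ) (t : K)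
    (hE : Extremal v) (hA : Unif p v t) :
    (∀ (A : Type) [CommRing A] (i : A →+* K) (s : A →+* PowerSeries (ZMod p)),
      Expansion v t i s → ∀ (n r : ℕ) (h : Fin r → MvPolynomial (Fin n) A)
        (g : MvPolynomial (Fin n) A),
        (∃ b : Fin n → K, (∀ k, v (b k) ≤ 1) ∧ Sol i h g b) →
          (∃ a : Fin n → PowerSeries (ZMod p), Sol s h g a) ∨ Gap v t i h g) ∧
    ((∀ x : K, x ≠ 0 → (∀ N : ℕ, v x < v t ^ N) →
        ∃ σ : K ≃+* K, (∀ y, v (σ y) ≤ 1 ↔ v y ≤ 1) ∧ σ t = t ∧ v (σ x) ≠ v x) →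
      ∀ (n r : ℕ) (h : Fin r → MvPolynomial (Fin n) (Polynomial (ZMod p)))
        (g : MvPolynomial (Fin n) (Polynomial (ZMod p))),
        (∃ b : Fin n → K, (∀ k, v (b k) ≤ 1) ∧ Sol (atT p t) h g b) ↔
          ∃ a : Fin n → PowerSeries (ZMod p), Sol Polynomial.coeToPowerSeries.ringHom h g a) := by
  refine ⟨main v t hE hA, fun hmov n r h g => ⟨fun hb => ?_, ?_⟩⟩
  · rcases main v t hE hA _ (atT p t) _ (expansion_atT hA) n r h g hb with h1 | h1
    · exact h1
    · obtain ⟨x, hx0, hx, _, _, hσ⟩ := h1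
      obtain ⟨σ, hσ1, hσt, hσx⟩ := hmov x hx0 hx
      refine absurd (hσ σ hσ1 (fun c => ?_) x rfl) hσx
      have h2 : (σ : K →+* K).comp (atT p t) = atT p t := by
        apply Polynomial.ringHom_ext
        · intro z
          have h3 : ((σ : K →+* K).comp (atT p t)).comp Polynomial.C =
              (atT p t).comp Polynomial.C := RingHom.ext_zmod _ _
          exact RingHom.congr_fun h3 z
        · have h3 : atT p t Polynomial.X = t := by
            simp [atT]
          rw [RingHom.comp_apply, h3]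
          exact hσt
      exact RingHom.congr_fun h2 c
  · rintro ⟨a, ha, hg⟩
    obtain ⟨b, hb, hbh, N, hN⟩ := conv (hens_of_extremal hE) hA h g a ha hg
    refine ⟨b, hb, hbh, fun h0 => ?_⟩
    rw [show MvPolynomial.eval₂ (ev p t) b g = 0 from h0, map_zero] at hN
    exact (pow_pos (v_t_pos hA) N).ne hN

end Pool.Agent.Results.MP_07fc42_lc.ExistentialGap
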