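import Pool.Agent.Helper28.EX.Defs

/-!
# Extremal valued fields are henselian
-/

set_option autoImplicit false

universe u w

namespace Pool.Agent.Helper28.EX

variable {K : Type u} {Γ : Type w} [Field K] [LinearOrderedCommGroupWithZero Γ] {v : Valuation K Γ}

theorem eval_lt {H : Polynomial K} (hH : ∀ k, v (H.coeff k) < 1) {y : K} (hy : v y ≤ 1) :
    v (H.eval y) < 1 := by
  rw [Polynomial.eval_eq_sum_range]
  apply v.map_sum_lt one_ne_zero
  intro k _
  rw [map_mul, map_pow]
  calc v (H.coeff k) * v y ^ k ≤ v (H.coeff k) * 1 :=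
        mul_le_mul_right (pow_le_one₀ zero_le hy) _
    _ < 1 := by rw [mul_one]; exact hH k

theorem pow_sub_le {x y : K} (hx : v x ≤ 1) (hy : v y ≤ 1) (k : ℕ) :
    v (x ^ k - y ^ k) ≤ v (x - y) := by
  rw [← (Commute.all x y).geom_sum₂_mul, map_mul]
  have h : v (∑ i ∈ Finset.range k, x ^ i * y ^ (k - 1 - i)) ≤ 1 := by
    apply v.map_sum_le
    intro i _
    rw [map_mul, map_pow, map_pow]
    exact mul_le_one' (pow_le_one₀ zero_le hx) (pow_le_one₀ zero_le hy)
  calc _ ≤ 1 * v (x - y) := mul_le_mul_left h _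
    _ = _ := one_mul _

theorem eval_sub_lt {H : Polynomial K} (hH : ∀ k, v (H.coeff k) < 1) {x y : K} (hx : v x ≤ 1)
    (hy : v y ≤ 1) (hne : x ≠ y) : v (H.eval x - H.eval y) < v (x - y) := by
  rw [Polynomial.eval_eq_sum_range, Polynomial.eval_eq_sum_range, ← Finset.sum_sub_distrib]
  have h0 : v (x - y) ≠ 0 := (Valuation.ne_zero_iff v).2 (sub_ne_zero.2 hne)
  apply v.map_sum_lt h0
  intro k _
  rw [← mul_sub, map_mul]
  calc v (H.coeff k) * v (x ^ k - y ^ k) ≤ v (H.coeff k) * v (x - y) :=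
        mul_le_mul_right (pow_sub_le hx hy k) _
    _ < 1 * v (x - y) := mul_lt_mul_of_pos_right (hH k) (zero_lt_iff.2 h0)
    _ = v (x - y) := one_mul _

theorem hens_of_extremal (h : Extremal v) : Hens v := by
  intro G h1 hk
  obtain ⟨a, ha, hmin⟩ := h 1 (Polynomial.aeval (MvPolynomial.X 0) G)
  have hev : ∀ b : Fin 1 → K, MvPolynomial.eval b (Polynomial.aeval (MvPolynomial.X 0) G) =
      G.eval (b 0) := by
    intro b
    rw [Polynomial.aeval_def, Polynomial.hom_eval₂]
    have h2 : (MvPolynomial.eval b).comp (algebraMap K (MvPolynomial (Fin 1) K)) =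
        RingHom.id K := by
      ext x
      simp
    rw [h2, MvPolynomial.eval_X, Polynomial.eval₂_id]
  refine ⟨a 0, ha 0, ?_⟩
  by_contra hne
  have hH : ∀ k, v ((G - Polynomial.X).coeff k) < 1 := by
    intro k
    rw [Polynomial.coeff_sub, Polynomial.coeff_X]
    by_cases hk1 : k = 1
    · rw [hk1, h1, if_pos rfl, sub_self, map_zero]
      exact zero_lt_one
    · rw [if_neg (fun h => hk1 h.symm), sub_zero]
      exact hk k hk1
  have hG : v (G.eval (a 0)) ≤ 1 := by
    have h2 : G.eval (a 0) = (G - Polynomial.X).eval (a 0) + a 0 := by simp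
    rw [h2]
    exact (v.map_add _ _).trans (max_le (eval_lt hH (ha 0)).le (ha 0))
  set y1 := a 0 - G.eval (a 0) with hy1
  have hy1' : v y1 ≤ 1 := (v.map_sub _ _).trans (max_le (ha 0) hG)
  have hne' : y1 ≠ a 0 := by
    intro h2
    apply hne
    have h3 : a 0 - G.eval (a 0) = a 0 := h2
    linear_combination -h3
  have h3 := eval_sub_lt hH hy1' (ha 0) hne'
  have h4 : (G - Polynomial.X).eval y1 - (G - Polynomial.X).eval (a 0) = G.eval y1 := by
    simp only [Polynomial.eval_sub, Polynomial.eval_X]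
    rw [hy1]
    ring
  have h5 : v (y1 - a 0) = v (G.eval (a 0)) := by
    rw [hy1, sub_sub_cancel_left, Valuation.map_neg]
  rw [h4, h5] at h3
  have h6 := hmin (fun _ => y1) (fun _ => hy1')
  rw [hev, hev] at h6
  exact absurd h3 (not_lt.2 h6)

theorem eval_eq_one {P : Polynomial K} (h0 : P.coeff 0 = 1) (hk : ∀ k, k ≠ 0 → v (P.coeff k) < 1)
    {y : K} (hy : v y ≤ 1) : v (P.eval y) = 1 := by
  have hH : ∀ k, v ((P - 1).coeff k) < 1 := by
    intro k
    rw [Polynomial.coeff_sub, Polynomial.coeff_one]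
    by_cases hk1 : k = 0
    · rw [hk1, h0, if_pos rfl, sub_self, map_zero]
      exact zero_lt_one
    · rw [if_neg hk1, sub_zero]
      exact hk k hk1
  have h2 : P.eval y = 1 + (P - 1).eval y := by simp
  rw [h2]
  exact v.map_one_add_of_lt (eval_lt hH hy)

/-- Newton's lemma -/
theorem newton (h : Hens v) (f : Polynomial K) (a η : K) (hη : η ≠ 0)
    (h0 : v (f.eval a) < v (η * f.derivative.eval a))
    (hk : ∀ k, 2 ≤ k → v (η ^ k * (Polynomial.taylor a f).coeff k) <
      v (η * f.derivative.eval a)) :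
    ∃ b, f.eval b = 0 ∧ v (b - a) * v (f.derivative.eval a) ≤ v (f.eval a) := by
  set u := f.derivative.eval a with hu
  have hηu : η * u ≠ 0 := by
    intro h2
    rw [h2, map_zero] at h0
    exact not_lt_zero h0
  have hu0 : u ≠ 0 := right_ne_zero_of_mul hηu
  let G : Polynomial K := Polynomial.C (η * u)⁻¹ *
    (Polynomial.taylor a f).comp (Polynomial.C η * Polynomial.X)
  have hG : ∀ k, G.coeff k = (η * u)⁻¹ * ((Polynomial.taylor a f).coeff k * η ^ k) := by
    intro k
    rw [Polynomial.coeff_C_mul, Polynomial.comp_C_mul_X_coeff]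
  have hG0 : G.coeff 0 = (η * u)⁻¹ * f.eval a := by
    rw [hG, pow_zero, mul_one, Polynomial.taylor_coeff_zero]
  have hG1 : G.coeff 1 = 1 := by
    rw [hG, pow_one, Polynomial.taylor_coeff_one, ← hu, mul_comm u η, inv_mul_cancel₀ hηu]
  have hGk : ∀ k, k ≠ 1 → v (G.coeff k) < 1 := by
    intro k hk1
    have hpos : 0 < v (η * u) := zero_lt_iff.2 ((Valuation.ne_zero_iff v).2 hηu)
    rcases Nat.eq_zero_or_pos k with rfl | hk0
    · rw [hG0, map_mul, map_inv₀, inv_mul_lt_iff₀ hpos, mul_one]
      exact h0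
    · rw [hG, map_mul, map_inv₀, inv_mul_lt_iff₀ hpos, mul_one, mul_comm _ (η ^ k)]
      exact hk k (by omega)
  obtain ⟨y, hy, hroot⟩ := h G hG1 hGk
  refine ⟨η * y + a, ?_, ?_⟩
  · have h2 : G.eval y = (η * u)⁻¹ * f.eval (η * y + a) := by
      rw [Polynomial.eval_mul, Polynomial.eval_C, Polynomial.eval_comp, Polynomial.taylor_eval,
        Polynomial.eval_mul, Polynomial.eval_C, Polynomial.eval_X]
    rw [h2] at hroot
    exact (mul_eq_zero.1 hroot).resolve_left (inv_ne_zero hηu)
  · have h3 : G.divX.eval y * y + G.coeff 0 = 0 := by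
      have h4 := congrArg (Polynomial.eval y) (Polynomial.divX_mul_X_add G)
      rw [Polynomial.eval_add, Polynomial.eval_mul, Polynomial.eval_X, Polynomial.eval_C,
        hroot] at h4
      exact h4
    have h5 : v (G.divX.eval y) = 1 := by
      apply eval_eq_one _ _ hy
      · rw [Polynomial.coeff_divX]
        exact hG1
      · intro k hk0
        rw [Polynomial.coeff_divX]
        exact hGk _ (by omega)
    have h6 : v y = v (G.coeff 0) := by
      have h7 : G.divX.eval y * y = -G.coeff 0 := by linear_combination h3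
      have h8 := congrArg v h7
      rwa [map_mul, h5, one_mul, Valuation.map_neg] at h8
    rw [add_sub_cancel_right, map_mul, h6, hG0, map_mul, map_inv₀, map_mul]
    have hη' : v η ≠ 0 := (Valuation.ne_zero_iff v).2 hη
    have hu' : v u ≠ 0 := (Valuation.ne_zero_iff v).2 hu0
    have h9 : v η * ((v η * v u)⁻¹ * v (f.eval a)) * v u = v (f.eval a) := by
      field_simp
    exact h9.le

end Pool.Agent.Helper28.EX
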