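import Mathlib

/-!
# Lifting points of the residue field of a henselian local ring which contains a field
-/

set_option autoImplicit false

universe u w

namespace Pool.Agent.Helper28.EX

open IsLocalRing IntermediateField

/-- Lifting a field generated by algebraically independent elements. -/
theorem lift_indep {F R L κ : Type u} [Field F] [CommRing R] [IsLocalRing R] [Algebra F R] [Field L]
    [Algebra F L] (ι : L →ₐ[F] ResidueField R) (x : κ → L) (hx : AlgebraicIndependent F x) :
    ∃ ψ : adjoin F (Set.range x) →+* R, (∀ y, residue R (ψ y) = ι y) ∧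
      ∀ r : F, ψ (algebraMap F _ r) = algebraMap F R r := by
  classical
  open scoped IntermediateField.algebraAdjoinAdjoin in
  have hc : ∀ i : κ, ∃ c : R, residue R c = ι (x i) := fun i => residue_surjective _
  choose c hc using hc
  let A := Algebra.adjoin F (Set.range x)
  let φ : A →ₐ[F] R := (MvPolynomial.aeval c).comp hx.aevalEquiv.symm.toAlgHom
  have hφ : ∀ y : A, residue R (φ y) = ι (y : L) := by
    intro y
    obtain ⟨P, rfl⟩ := hx.aevalEquiv.surjective y
    have h1 : φ (hx.aevalEquiv P) = MvPolynomial.aeval c P := by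
      simp [φ]
    have h2 : ((hx.aevalEquiv P : A) : L) = MvPolynomial.aeval x P := hx.algebraMap_aevalEquiv P
    rw [h1, h2]
    have h3 : residue R (MvPolynomial.aeval c P) =
        (IsScalarTower.toAlgHom F R (ResidueField R)) (MvPolynomial.aeval c P) := rfl
    rw [h3, MvPolynomial.comp_aeval_apply, MvPolynomial.comp_aeval_apply]
    have h4 : (fun i => (IsScalarTower.toAlgHom F R (ResidueField R)) (c i)) =
        fun i => ι (x i) := funext hc
    rw [h4]
  have hu : ∀ y : nonZeroDivisors A, IsUnit (φ (y : A)) := by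
    intro y
    by_contra hn
    have h1 : residue R (φ (y : A)) = 0 := by
      rw [residue_eq_zero_iff]
      exact (mem_maximalIdeal _).2 hn
    rw [hφ] at h1
    have h2 : ((y : A) : L) = 0 := (map_eq_zero ι).1 h1
    have h3 : (y : A) = 0 := Subtype.ext h2
    exact nonZeroDivisors.ne_zero y.2 h3
  let ψ : adjoin F (Set.range x) →+* R :=
    IsLocalization.lift (M := nonZeroDivisors A) (S := adjoin F (Set.range x))
      (g := (φ : A →+* R)) hu
  have hψ : ∀ y : A, ψ (algebraMap A _ y) = φ y := fun y => IsLocalization.lift_eq hu y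
  refine ⟨ψ, ?_, ?_⟩
  · have h1 : (residue R).comp ψ = (ι : L →+* ResidueField R).comp
        (algebraMap (adjoin F (Set.range x)) L) := by
      apply IsLocalization.ringHom_ext (nonZeroDivisors A)
      ext y
      change residue R (ψ (algebraMap A _ y)) = ι _
      rw [hψ, hφ]
      rfl
    intro y
    exact RingHom.congr_fun h1 y
  · intro r
    have h1 : algebraMap F (adjoin F (Set.range x)) r =
        algebraMap A (adjoin F (Set.range x)) (algebraMap F A r) := rfl
    rw [h1, hψ]
    exact φ.commutes r

/-- Lifting a finite separable extension. -/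
theorem lift_sep {R E L : Type u} [CommRing R] [HenselianLocalRing R] [Field E] [Field L]
    [Algebra E L] [FiniteDimensional E L] [Algebra.IsSeparable E L] (ι : L →+* ResidueField R)
    (ψ : E →+* R) (h : ∀ x, residue R (ψ x) = ι (algebraMap E L x)) :
    ∃ Ψ : L →+* R, (∀ y, residue R (Ψ y) = ι y) ∧ ∀ x, Ψ (algebraMap E L x) = ψ x := by
  classical
  let pb := Field.powerBasisOfFiniteOfSeparable E L
  let θ := pb.gen
  let μ := minpoly E θ
  have hθ : IsIntegral E θ := Algebra.IsIntegral.isIntegral θ
  have hsep : μ.Separable := Algebra.IsSeparable.isSeparable E θ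
  obtain ⟨r0, hr0⟩ := residue_surjective (R := R) (ι θ)
  have hcomp : (residue R).comp ψ = ι.comp (algebraMap E L) := RingHom.ext h
  have hev : ∀ P : Polynomial E, residue R ((P.map ψ).eval r0) = ι (Polynomial.aeval θ P) := by
    intro P
    rw [Polynomial.eval_map, Polynomial.hom_eval₂, hcomp, hr0, Polynomial.aeval_def,
      Polynomial.hom_eval₂]
  have h1 : (μ.map ψ).eval r0 ∈ maximalIdeal R := by
    rw [← residue_eq_zero_iff, hev, minpoly.aeval, map_zero]
  have h2 : IsUnit ((μ.map ψ).derivative.eval r0) := by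
    by_contra hn
    have h3 : residue R ((μ.map ψ).derivative.eval r0) = 0 := by
      rw [residue_eq_zero_iff]
      exact (mem_maximalIdeal _).2 hn
    rw [Polynomial.derivative_map, hev] at h3
    exact hsep.aeval_derivative_ne_zero (minpoly.aeval E θ) ((map_eq_zero ι).1 h3)
  obtain ⟨r, hr, hr1⟩ := HenselianLocalRing.is_henselian (μ.map ψ)
    ((minpoly.monic hθ).map ψ) r0 h1 h2
  let _ : Algebra E R := ψ.toAlgebra
  have hroot : Polynomial.aeval r μ = 0 := by
    rw [Polynomial.aeval_def, ← Polynomial.eval_map]
    exact hr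
  let Ψ : L →ₐ[E] R := pb.lift r hroot
  have hΨ : Ψ pb.gen = r := pb.lift_gen r hroot
  have hcm : ∀ x, Ψ (algebraMap E L x) = ψ x := fun x => Ψ.commutes x
  refine ⟨Ψ, ?_, hcm⟩
  let _ : Algebra E (ResidueField R) := (ι.comp (algebraMap E L)).toAlgebra
  let f1 : L →ₐ[E] ResidueField R :=
    { toRingHom := (residue R).comp (Ψ : L →+* R)
      commutes' := fun x => by
        change residue R (Ψ (algebraMap E L x)) = ι (algebraMap E L x)
        rw [hcm, h] }
  let f2 : L →ₐ[E] ResidueField R :=
    { toRingHom := ι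
      commutes' := fun x => rfl }
  have hf : f1 = f2 := by
    apply pb.algHom_ext
    change residue R (Ψ pb.gen) = ι θ
    rw [hΨ, ← hr0]
    exact (Ideal.Quotient.eq.2 hr1)
  intro y
  exact AlgHom.congr_fun hf y

/-- **Lifting points.**  `R` is a henselian local ring which contains the field `F`, and its
residue field is separable over `F`.  The zeros of a system over `F` in the residue field lift. -/
theorem lift_points {F R : Type u} [Field F] [CommRing R] [HenselianLocalRing R] [Algebra F R]
    (p : ℕ) (hp : p.Prime) [CharP F p]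
    (H : ∀ s : Finset (ResidueField R), LinearIndepOn F id (s : Set (ResidueField R)) →
      LinearIndepOn F (· ^ p) (s : Set (ResidueField R)))
    {n : ℕ} (a : Fin n → ResidueField R) :
    ∃ b : Fin n → R, (∀ i, residue R (b i) = a i) ∧
      ∀ h : MvPolynomial (Fin n) F, MvPolynomial.aeval a h = 0 → MvPolynomial.aeval b h = 0 := by
  classical
  let L := adjoin F (Set.range a)
  have hfg : L.FG := IntermediateField.fg_adjoin_of_finite (Set.finite_range a)
  have : Algebra.EssFiniteType F L := essFiniteType_iff.2 hfg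
  have : ExpChar F p := ExpChar.prime hp
  have HL : ∀ s : Finset L, LinearIndepOn F _root_.id (s : Set L) →
      LinearIndepOn F (· ^ p) (s : Set L) := by
    intro s hs
    have h1 : LinearIndepOn F id ((s.image L.val : Finset (ResidueField R)) :
        Set (ResidueField R)) := by
      rw [Finset.coe_image]
      exact (hs.map_injOn L.val.toLinearMap (fun x _ y _ hxy => Subtype.ext hxy)).id_image
    have h2 := H _ h1
    rw [Finset.coe_image] at h2
    have h3 := h2.comp_of_image (fun x _ y _ hxy => Subtype.ext hxy)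
    exact LinearIndepOn.of_comp L.val.toLinearMap h3
  obtain ⟨s, hs, hsep⟩ :=
    exists_isTranscendenceBasis_and_isSeparable_of_linearIndepOn_pow_of_essFiniteType (k := F)
      (K := L) p hp HL
  have hrange : (s : Set L) = Set.range (fun x : s => (x : L)) := by simp
  rw [hrange] at hsep
  obtain ⟨ψ, hψ1, hψ2⟩ := lift_indep (R := R) L.val (fun x : s => (x : L)) hs.1
  have : Algebra.EssFiniteType (adjoin F (Set.range fun x : s => (x : L))) L :=
    Algebra.EssFiniteType.of_comp F _ L
  have : FiniteDimensional (adjoin F (Set.range fun x : s => (x : L))) L :=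
    Algebra.finite_of_essFiniteType_of_isAlgebraic
  obtain ⟨Ψ, hΨ1, hΨ2⟩ := lift_sep (R := R) (L.val : L →+* ResidueField R) ψ hψ1
  have hΨ3 : ∀ r : F, Ψ (algebraMap F L r) = algebraMap F R r := by
    intro r
    rw [← hψ2 r, ← hΨ2]
    rfl
  refine ⟨fun i => Ψ ⟨a i, subset_adjoin F (Set.range a) ⟨i, rfl⟩⟩, fun i => hΨ1 _, fun h hh => ?_⟩
  let Ψ' : L →ₐ[F] R := { toRingHom := Ψ, commutes' := hΨ3 }
  have h1 : MvPolynomial.aeval (fun i => Ψ ⟨a i, subset_adjoin F (Set.range a) ⟨i, rfl⟩⟩) h =
      Ψ' (MvPolynomial.aeval (fun i => (⟨a i, subset_adjoin F (Set.range a) ⟨i, rfl⟩⟩ : L)) h) := by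
    rw [MvPolynomial.comp_aeval_apply]
    rfl
  have h2 : MvPolynomial.aeval (fun i => (⟨a i, subset_adjoin F (Set.range a) ⟨i, rfl⟩⟩ : L)) h = 0 := by
    apply Subtype.ext
    have h3 : ((MvPolynomial.aeval (fun i => (⟨a i, subset_adjoin F (Set.range a) ⟨i, rfl⟩⟩ : L)) h : L) :
        ResidueField R) = L.val (MvPolynomial.aeval
          (fun i => (⟨a i, subset_adjoin F (Set.range a) ⟨i, rfl⟩⟩ : L)) h) := rfl
    rw [h3, MvPolynomial.comp_aeval_apply]
    exact hh
  rw [h1, h2, map_zero]

end Pool.Agent.Helper28.EX
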