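import Pool.Agent.Helper28.EX.SAP
import Pool.Agent.Helper28.EX.Form

/-!
# Extremality on affine varieties
-/

set_option autoImplicit false

universe u w

namespace Pool.Agent.Helper28.EX

variable {K : Type u} {Γ : Type w} [Field K] [LinearOrderedCommGroupWithZero Γ] {v : Valuation K Γ}
  {p : ℕ} [hp : Fact p.Prime] {t : K}

theorem sap_top (hE : Extremal v) (hU : Unif p v t) [CharP K p] {n : ℕ} {κ : Type} [Finite κ]
    (h : κ → MvPolynomial (Fin n) K) (B : K) (hB0 : B ≠ 0) (hB1 : v B ≤ 1) :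
    ∃ α : K, α ≠ 0 ∧ ∀ a : Fin n → K, (∀ i, v (a i) ≤ 1) →
      (∀ j, v (MvPolynomial.eval a (h j)) ≤ v α) →
      ∃ a' : Fin n → K, (∀ i, v (a' i) ≤ 1) ∧ (∀ j, MvPolynomial.eval a' (h j) = 0) ∧
        ∀ i, v (a' i - a i) ≤ v B := by
  have hev : ∀ (a : Fin n → K) (j : κ), MvPolynomial.aeval a
      (MvPolynomial.map (Subfield.topEquiv (K := K)).symm.toRingHom (h j)) =
      MvPolynomial.eval a (h j) := by
    intro a j
    rw [MvPolynomial.aeval_def, MvPolynomial.eval₂_map]
    rfl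
  obtain ⟨α, _, hα0, hα⟩ := sap (F := ⊤) (hens_of_extremal hE) hU (Subfield.mem_top t)
    (fun x _ => by
      obtain ⟨c, hc⟩ := pbasis hE hU x
      exact ⟨c, fun i => Subfield.mem_top _, hc⟩)
    (fun j => MvPolynomial.map (Subfield.topEquiv (K := K)).symm.toRingHom (h j)) B
    (Subfield.mem_top B) hB0 hB1
  simp only [hev] at hα
  exact ⟨α, hα0, hα⟩

omit hp in
/-- polynomials are Lipschitz -/
theorem lip {n : ℕ} (f : MvPolynomial (Fin n) K) : ∃ δ : K, δ ≠ 0 ∧ v δ ≤ 1 ∧
    (∀ a : Fin n → K, (∀ i, v (a i) ≤ 1) → v (δ * MvPolynomial.eval a f) ≤ 1) ∧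
    ∀ a b : Fin n → K, (∀ i, v (a i) ≤ 1) → (∀ i, v (b i) ≤ 1) → ∀ B : Γ,
      (∀ i, v (a i - b i) ≤ B) →
      v (δ * (MvPolynomial.eval a f - MvPolynomial.eval b f)) ≤ B := by
  induction f using MvPolynomial.induction_on with
  | C c =>
    obtain ⟨δ, hδ0, hδ1, hδ⟩ : ∃ δ : K, δ ≠ 0 ∧ v δ ≤ 1 ∧ v (δ * c) ≤ 1 := by
      rcases le_total (v c) 1 with h | h
      · exact ⟨1, one_ne_zero, by rw [map_one], by rwa [one_mul]⟩
      · have hc : c ≠ 0 := by
          rintro rfl
          rw [map_zero] at h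
          exact absurd h (not_le.2 zero_lt_one)
        refine ⟨c⁻¹, inv_ne_zero hc, ?_, ?_⟩
        · rw [map_inv₀]
          exact inv_le_one_of_one_le₀ h
        · rw [inv_mul_cancel₀ hc, map_one]
    refine ⟨δ, hδ0, hδ1, fun a _ => by rwa [MvPolynomial.eval_C], fun a b _ _ B _ => ?_⟩
    rw [MvPolynomial.eval_C, MvPolynomial.eval_C, sub_self, mul_zero, map_zero]
    exact zero_le
  | add f g hf hg =>
    obtain ⟨δ, h0, h1, h2, h3⟩ := hf
    obtain ⟨ε, k0, k1, k2, k3⟩ := hg
    refine ⟨δ * ε, mul_ne_zero h0 k0, by rw [map_mul]; exact mul_le_one' h1 k1,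
      fun a ha => ?_, fun a b ha hb B hB => ?_⟩
    · have h4 : δ * ε * MvPolynomial.eval a (f + g) = ε * (δ * MvPolynomial.eval a f) +
          δ * (ε * MvPolynomial.eval a g) := by
        rw [map_add]
        ring
      rw [h4]
      refine (v.map_add _ _).trans (max_le ?_ ?_)
      · rw [map_mul]
        exact mul_le_one' k1 (h2 a ha)
      · rw [map_mul]
        exact mul_le_one' h1 (k2 a ha)
    · have h4 : δ * ε * (MvPolynomial.eval a (f + g) - MvPolynomial.eval b (f + g)) =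
          ε * (δ * (MvPolynomial.eval a f - MvPolynomial.eval b f)) +
          δ * (ε * (MvPolynomial.eval a g - MvPolynomial.eval b g)) := by
        rw [map_add, map_add]
        ring
      rw [h4]
      refine (v.map_add _ _).trans (max_le ?_ ?_)
      · rw [map_mul]
        calc _ ≤ 1 * B := mul_le_mul' k1 (h3 a b ha hb B hB)
          _ = B := one_mul B
      · rw [map_mul]
        calc _ ≤ 1 * B := mul_le_mul' h1 (k3 a b ha hb B hB)
          _ = B := one_mul B
  | mul_X f i hf =>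
    obtain ⟨δ, h0, h1, h2, h3⟩ := hf
    refine ⟨δ, h0, h1, fun a ha => ?_, fun a b ha hb B hB => ?_⟩
    · have h4 : δ * MvPolynomial.eval a (f * MvPolynomial.X i) =
          δ * MvPolynomial.eval a f * a i := by
        rw [map_mul, MvPolynomial.eval_X, mul_assoc]
      rw [h4, map_mul]
      exact mul_le_one' (h2 a ha) (ha i)
    · have h4 : δ * (MvPolynomial.eval a (f * MvPolynomial.X i) -
          MvPolynomial.eval b (f * MvPolynomial.X i)) =
          δ * (MvPolynomial.eval a f - MvPolynomial.eval b f) * a i +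
          δ * MvPolynomial.eval b f * (a i - b i) := by
        rw [map_mul, map_mul, MvPolynomial.eval_X, MvPolynomial.eval_X]
        ring
      rw [h4]
      refine (v.map_add _ _).trans (max_le ?_ ?_)
      · rw [map_mul]
        calc _ ≤ B * 1 := mul_le_mul' (h3 a b ha hb B hB) (ha i)
          _ = B := mul_one B
      · rw [map_mul]
        calc _ ≤ 1 * B := mul_le_mul' (h2 b hb) (hB i)
          _ = B := one_mul B

/-- **Extremality on varieties**, one function -/
theorem ext_var (hE : Extremal v) (hU : Unif p v t) [CharP K p] {n : ℕ} {κ : Type} [Fintype κ]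
    (h : κ → MvPolynomial (Fin n) K) (f : MvPolynomial (Fin n) K)
    (hne : ∃ a : Fin n → K, (∀ i, v (a i) ≤ 1) ∧ ∀ j, MvPolynomial.eval a (h j) = 0) :
    ∃ a : Fin n → K, (∀ i, v (a i) ≤ 1) ∧ (∀ j, MvPolynomial.eval a (h j) = 0) ∧
      ∀ b : Fin n → K, (∀ i, v (b i) ≤ 1) → (∀ j, MvPolynomial.eval b (h j) = 0) →
        v (MvPolynomial.eval a f) ≤ v (MvPolynomial.eval b f) := by
  classical
  by_contra hcon
  push Not at hcon
  -- `f` has no zero
  have hf0 : ∀ a : Fin n → K, (∀ i, v (a i) ≤ 1) → (∀ j, MvPolynomial.eval a (h j) = 0) →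
      MvPolynomial.eval a f ≠ 0 := by
    intro a ha hah h0
    obtain ⟨b, _, _, hb⟩ := hcon a ha hah
    rw [h0, map_zero] at hb
    exact not_lt_zero hb
  -- the values are bounded
  obtain ⟨β, hβ0, hβ1, hβ⟩ : ∃ β : K, β ≠ 0 ∧ v β ≤ 1 ∧ ∀ a : Fin n → K, (∀ i, v (a i) ≤ 1) →
      (∀ j, MvPolynomial.eval a (h j) = 0) → v β ≤ v (MvPolynomial.eval a f) := by
    by_contra hno
    push Not at hno
    obtain ⟨α, hα0, hα⟩ := sap_top hE hU (fun j : Option κ => j.elim f h) 1 one_ne_zero
      (by rw [map_one])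
    obtain ⟨α', hα'0, hα'1, hα'α⟩ : ∃ α' : K, α' ≠ 0 ∧ v α' ≤ 1 ∧ v α' ≤ v α := by
      rcases le_total (v α) 1 with h1 | h1
      · exact ⟨α, hα0, h1, le_rfl⟩
      · exact ⟨1, one_ne_zero, by rw [map_one], by rwa [map_one]⟩
    obtain ⟨a, ha, hah, haf⟩ := hno α' hα'0 hα'1
    obtain ⟨b, hb, hbh, _⟩ := hα a ha (fun j => by
      cases j with
      | none => exact haf.le.trans hα'α
      | some j =>
        change v (MvPolynomial.eval a (h j)) ≤ v α
        rw [hah j, map_zero]
        exact zero_le)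
    exact hf0 b hb (fun j => hbh (some j)) (hbh none)
  -- close points have the same value
  obtain ⟨δ, hδ0, hδ1, _, hδ⟩ := lip (v := v) f
  have hvδ : 0 < v δ := zero_lt_iff.2 ((Valuation.ne_zero_iff v).2 hδ0)
  have hvβ : 0 < v β := zero_lt_iff.2 ((Valuation.ne_zero_iff v).2 hβ0)
  have hB0 : t * β * δ ≠ 0 := mul_ne_zero (mul_ne_zero hU.t0 hβ0) hδ0
  have hB1 : v (t * β * δ) ≤ 1 := by
    rw [map_mul, map_mul]
    exact mul_le_one' (mul_le_one' hU.t1.le hβ1) hδ1
  obtain ⟨α, hα0, hα⟩ := sap_top hE hU h (t * β * δ) hB0 hB1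
  have hclose : ∀ a b : Fin n → K, (∀ i, v (a i) ≤ 1) → (∀ i, v (b i) ≤ 1) →
      (∀ j, MvPolynomial.eval a (h j) = 0) → (∀ i, v (a i - b i) ≤ v (t * β * δ)) →
      v (MvPolynomial.eval b f) = v (MvPolynomial.eval a f) := by
    intro a b ha hb hah hab
    have h1 := hδ a b ha hb _ hab
    have h2 : v (MvPolynomial.eval a f - MvPolynomial.eval b f) < v (MvPolynomial.eval a f) := by
      have h3 : v δ * v (MvPolynomial.eval a f - MvPolynomial.eval b f) ≤ v δ * v (t * β) := by
        rw [← map_mul, ← map_mul, mul_comm δ (t * β)]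
        exact h1
      have h4 := le_of_mul_le_mul_left h3 hvδ
      refine lt_of_le_of_lt h4 (lt_of_lt_of_le ?_ (hβ a ha hah))
      rw [map_mul]
      calc v t * v β < 1 * v β := mul_lt_mul_of_pos_right hU.t1 hvβ
        _ = v β := one_mul _
    have h3 : MvPolynomial.eval b f = MvPolynomial.eval a f -
        (MvPolynomial.eval a f - MvPolynomial.eval b f) := by ring
    rw [h3]
    exact v.map_sub_eq_of_lt_left h2
  obtain ⟨a0, ha0, ha0h⟩ := hne
  have hf00 := hf0 a0 ha0 ha0h
  let e : K := α / MvPolynomial.eval a0 f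
  have he0 : e ≠ 0 := div_ne_zero hα0 hf00
  obtain ⟨Ψ, d, hd, hΨ⟩ := form (n := n) hU (Finset.univ : Finset (Option κ))
    (fun j => j.elim (MvPolynomial.C e * f) h)
  obtain ⟨a1, ha1, hmin⟩ := hE n Ψ
  have hmin' : ∀ b : Fin n → K, (∀ i, v (b i) ≤ 1) →
      ((Finset.univ : Finset (Option κ)).sup fun j => v (MvPolynomial.eval a1
        ((j.elim (MvPolynomial.C e * f) h : MvPolynomial (Fin n) K)))) ≤
      (Finset.univ : Finset (Option κ)).sup fun j => v (MvPolynomial.eval b
        ((j.elim (MvPolynomial.C e * f) h : MvPolynomial (Fin n) K))) := by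
    intro b hb
    have h1 := hmin b hb
    rw [hΨ, hΨ] at h1
    exact (pow_le_pow_iff_left₀ zero_le zero_le hd.ne').1 h1
  have hle : ∀ a : Fin n → K, ∀ j : Option κ, v (MvPolynomial.eval a
      ((j.elim (MvPolynomial.C e * f) h : MvPolynomial (Fin n) K))) ≤
      (Finset.univ : Finset (Option κ)).sup fun j => v (MvPolynomial.eval a
        ((j.elim (MvPolynomial.C e * f) h : MvPolynomial (Fin n) K))) := fun a j =>
    Finset.le_sup (f := fun j : Option κ => v (MvPolynomial.eval a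
        ((j.elim (MvPolynomial.C e * f) h : MvPolynomial (Fin n) K)))) (Finset.mem_univ j)
  have hV : ∀ a : Fin n → K, (∀ j, MvPolynomial.eval a (h j) = 0) →
      ((Finset.univ : Finset (Option κ)).sup fun j => v (MvPolynomial.eval a
        ((j.elim (MvPolynomial.C e * f) h : MvPolynomial (Fin n) K)))) ≤
      v e * v (MvPolynomial.eval a f) := by
    intro a hah
    refine Finset.sup_le fun j _ => ?_
    cases j with
    | none =>
      change v (MvPolynomial.eval a (MvPolynomial.C e * f)) ≤ _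
      rw [map_mul, MvPolynomial.eval_C, map_mul]
    | some j =>
      change v (MvPolynomial.eval a (h j)) ≤ _
      rw [hah j, map_zero]
      exact zero_le
  have hα1 : v e * v (MvPolynomial.eval a0 f) = v α := by
    rw [← map_mul]
    congr 1
    exact div_mul_cancel₀ α hf00
  obtain ⟨a2, ha2, ha2h, hclose2⟩ := hα a1 ha1 (fun j => by
    calc v (MvPolynomial.eval a1 (h j)) ≤ _ := hle a1 (some j)
      _ ≤ _ := hmin' a0 ha0
      _ ≤ _ := hV a0 ha0h
      _ = v α := hα1)
  obtain ⟨a3, ha3, ha3h, hlt⟩ := hcon a2 ha2 ha2h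
  have h1 : v (MvPolynomial.eval a1 f) = v (MvPolynomial.eval a2 f) :=
    hclose a2 a1 ha2 ha1 ha2h hclose2
  have h2 : v e * v (MvPolynomial.eval a2 f) ≤ v e * v (MvPolynomial.eval a3 f) := by
    calc v e * v (MvPolynomial.eval a2 f) = v (MvPolynomial.eval a1 (MvPolynomial.C e * f)) := by
          rw [map_mul, MvPolynomial.eval_C, map_mul, h1]
      _ ≤ _ := hle a1 none
      _ ≤ _ := hmin' a3 ha3
      _ ≤ _ := hV a3 ha3h
  have hve : 0 < v e := zero_lt_iff.2 ((Valuation.ne_zero_iff v).2 he0)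
  exact absurd (le_of_mul_le_mul_left h2 hve) (not_le.2 hlt)

end Pool.Agent.Helper28.EX
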