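import Pool.Agent.Helper28.EX.UH

/-!
# `p`-bases of extremal valued fields
-/

set_option autoImplicit false

universe u w

namespace Pool.Agent.Helper28.EX

variable {K : Type u} {Γ : Type w} [Field K] [LinearOrderedCommGroupWithZero Γ] {v : Valuation K Γ}
  {p : ℕ} [hp : Fact p.Prime] {t : K}

theorem intCast_pow_p [CharP K p] (m : ℤ) : (m : K) ^ p = m := by
  have h1 : (frobenius K p) (m : K) = m := map_intCast (frobenius K p) m
  exact h1

omit hp in
theorem v_t_pos (hU : Unif p v t) : 0 < v t := zero_lt_iff.2 ((Valuation.ne_zero_iff v).2 hU.t0)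

omit hp in
/-- distinct terms of `∑ t ^ i * z i ^ p` have distinct values -/
theorem val_ne (hU : Unif p v t) {i j : ℕ} (hij : i < j) (hj : j < p) {y z : K} (hy : y ≠ 0)
    (hz : z ≠ 0) : v (t ^ i * y ^ p) ≠ v (t ^ j * z ^ p) := by
  intro h
  have hvt := v_t_pos hU
  have hvy : 0 < v y := zero_lt_iff.2 ((Valuation.ne_zero_iff v).2 hy)
  have hvz : 0 < v z := zero_lt_iff.2 ((Valuation.ne_zero_iff v).2 hz)
  have hp0 : p ≠ 0 := by omega
  simp only [map_mul, map_pow] at h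
  obtain ⟨m, rfl⟩ : ∃ m, j = i + (m + 1) := ⟨j - i - 1, by omega⟩
  rw [pow_add, mul_assoc] at h
  have h1 : v y ^ p = v t ^ (m + 1) * v z ^ p := mul_left_cancel₀ (pow_pos hvt i).ne' h
  have h2 : v (y / z) ^ p = v t ^ (m + 1) := by
    rw [map_div₀, div_pow, h1, mul_div_cancel_right₀ _ (pow_pos hvz p).ne']
  have h3 : v (y / z) < 1 := by
    by_contra h4
    have h5 : 1 ≤ v (y / z) ^ p := one_le_pow₀ (not_lt.1 h4)
    rw [h2] at h5
    exact absurd (pow_lt_one₀ zero_le hU.t1 (Nat.succ_ne_zero m)) (not_lt.2 h5)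
  have h4 : v (y / z) ^ p ≤ v t ^ p := pow_le_pow_left₀ zero_le (hU.max _ h3) p
  rw [h2] at h4
  exact absurd (pow_lt_pow_right_of_lt_one₀ hvt hU.t1 (by omega : m + 1 < p)) (not_lt.2 h4)

/-- the value of `∑ t ^ i * z i ^ p` -/
theorem val_sum (hU : Unif p v t) (z : Fin p → K) (i : Fin p) :
    v (t ^ (i : ℕ) * z i ^ p) ≤ v (∑ j : Fin p, t ^ (j : ℕ) * z j ^ p) := by
  classical
  have : Nonempty (Fin p) := ⟨i⟩
  obtain ⟨j, _, hj⟩ := Finset.exists_max_image Finset.univ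
    (fun j : Fin p => v (t ^ (j : ℕ) * z j ^ p)) Finset.univ_nonempty
  refine (hj i (Finset.mem_univ i)).trans ?_
  have hp0 : p ≠ 0 := hp.out.ne_zero
  by_cases hz : z j = 0
  · rw [hz, zero_pow hp0, mul_zero, map_zero]
    exact zero_le
  refine le_of_eq (v.map_sum_eq_of_lt (f := fun j : Fin p => t ^ (j : ℕ) * z j ^ p)
    (Finset.mem_univ j) ?_).symm
  intro k hk
  have hkj : k ≠ j := by
    simpa using hk
  refine lt_of_le_of_ne (hj k (Finset.mem_univ k)) ?_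
  by_cases hzk : z k = 0
  · rw [hzk, zero_pow hp0, mul_zero, map_zero]
    exact ((Valuation.ne_zero_iff v).2 (mul_ne_zero (pow_ne_zero _ hU.t0) (pow_ne_zero _ hz))).symm
  · rcases lt_or_gt_of_ne (fun h => hkj (Fin.ext h) : (k : ℕ) ≠ j) with h | h
    · exact val_ne hU h j.2 hzk hz
    · exact (val_ne hU h k.2 hz hzk).symm

/-- `1, t, …, t ^ (p - 1)` generate `K` over `K ^ p` -/
theorem pbasis_int (hE : Extremal v) (hU : Unif p v t) [CharP K p] (x : K) (hx : v x ≤ 1) :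
    ∃ c : Fin p → K, x = ∑ i : Fin p, t ^ (i : ℕ) * c i ^ p := by
  classical
  have hvt := v_t_pos hU
  have hp0 : p ≠ 0 := hp.out.ne_zero
  obtain ⟨a, ha, hmin⟩ := hE p (MvPolynomial.C x -
    ∑ i : Fin p, MvPolynomial.C (t ^ (i : ℕ)) * MvPolynomial.X i ^ p)
  have hev : ∀ b : Fin p → K, MvPolynomial.eval b (MvPolynomial.C x -
      ∑ i : Fin p, MvPolynomial.C (t ^ (i : ℕ)) * MvPolynomial.X i ^ p) =
      x - ∑ i : Fin p, t ^ (i : ℕ) * b i ^ p := by
    intro b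
    simp
  simp only [hev] at hmin
  refine ⟨a, ?_⟩
  by_contra hne
  set c := x - ∑ i : Fin p, t ^ (i : ℕ) * a i ^ p with hc
  have hc0 : c ≠ 0 := sub_ne_zero.2 hne
  have hc1 : v c ≤ 1 := by
    have h1 := hmin (fun _ => 0) (fun _ => by rw [map_zero]; exact zero_le_one)
    refine h1.trans ?_
    simpa [hp0] using hx
  obtain ⟨i, y, hi, hvc⟩ := hU.grp c hc0
  have hy0 : y ≠ 0 := by
    rintro rfl
    rw [zero_pow hp0, mul_zero, map_zero] at hvc
    exact (Valuation.ne_zero_iff v).2 hc0 hvc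
  have hvy : 0 < v y := zero_lt_iff.2 ((Valuation.ne_zero_iff v).2 hy0)
  have hy1 : v y ≤ 1 := by
    by_contra h1
    have h2 : v y⁻¹ < 1 := by
      rw [map_inv₀]
      exact inv_lt_one_of_one_lt₀ (not_le.1 h1)
    have h3 := hU.max _ h2
    have h4 : 1 < v c := by
      rw [hvc, map_mul, map_pow, map_pow]
      have h5 : 1 ≤ v t * v y := by
        rw [map_inv₀, inv_le_iff_one_le_mul₀ hvy] at h3
        exact h3
      obtain ⟨k, hk⟩ : ∃ k, p = i + (k + 1) := ⟨p - i - 1, by omega⟩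
      calc (1 : Γ) < v y ^ (k + 1) := one_lt_pow₀ (not_le.1 h1) (Nat.succ_ne_zero k)
        _ = 1 * v y ^ (k + 1) := (one_mul _).symm
        _ ≤ (v t * v y) ^ i * v y ^ (k + 1) := mul_le_mul_left (one_le_pow₀ h5) _
        _ = v t ^ i * v y ^ p := by
          conv_rhs => rw [hk, pow_add]
          rw [mul_pow, mul_assoc]
    exact absurd hc1 (not_le.2 h4)
  have hd0 : t ^ i * y ^ p ≠ 0 := mul_ne_zero (pow_ne_zero _ hU.t0) (pow_ne_zero _ hy0)
  have hu : v (c / (t ^ i * y ^ p)) ≤ 1 := by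
    rw [map_div₀, hvc, div_self ((Valuation.ne_zero_iff v).2 hd0)]
  obtain ⟨m, hm⟩ := hU.res _ hu
  let b : Fin p → K := Function.update a ⟨i, hi⟩ (a ⟨i, hi⟩ + m * y)
  have hm1 : v (m : K) ≤ 1 := by
    have h1 : (m : K) = c / (t ^ i * y ^ p) - (c / (t ^ i * y ^ p) - m) := by ring
    rw [h1]
    exact (v.map_sub _ _).trans (max_le hu hm.le)
  have hb : ∀ j, v (b j) ≤ 1 := by
    intro j
    by_cases hj : j = ⟨i, hi⟩
    · rw [hj]
      change v (Function.update a ⟨i, hi⟩ (a ⟨i, hi⟩ + m * y) ⟨i, hi⟩) ≤ 1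
      rw [Function.update_self]
      refine (v.map_add _ _).trans (max_le (ha _) ?_)
      rw [map_mul]
      exact mul_le_one' hm1 hy1
    · change v (Function.update a ⟨i, hi⟩ (a ⟨i, hi⟩ + m * y) j) ≤ 1
      rw [Function.update_of_ne hj]
      exact ha j
  have hsum : ∑ j : Fin p, t ^ (j : ℕ) * b j ^ p = ∑ j : Fin p, t ^ (j : ℕ) * a j ^ p + t ^ i * (m * y) ^ p := by
    have h1 : ∀ j : Fin p, t ^ (j : ℕ) * b j ^ p = t ^ (j : ℕ) * a j ^ p +
        if j = ⟨i, hi⟩ then t ^ i * (m * y) ^ p else 0 := by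
      intro j
      by_cases hj : j = ⟨i, hi⟩
      · rw [if_pos hj, hj]
        change t ^ i * (Function.update a ⟨i, hi⟩ (a ⟨i, hi⟩ + m * y) ⟨i, hi⟩) ^ p = _
        rw [Function.update_self, add_pow_char, mul_add]
      · rw [if_neg hj, add_zero]
        change t ^ (j : ℕ) * (Function.update a ⟨i, hi⟩ (a ⟨i, hi⟩ + m * y) j) ^ p = _
        rw [Function.update_of_ne hj]
    rw [Finset.sum_congr rfl (fun j _ => h1 j), Finset.sum_add_distrib, Finset.sum_ite_eq' Finset.univ,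
      if_pos (Finset.mem_univ _)]
  have h1 := hmin b hb
  rw [hsum, ← sub_sub, ← hc, mul_pow, intCast_pow_p] at h1
  have h2 : c - t ^ i * (m * y ^ p) = (t ^ i * y ^ p) * (c / (t ^ i * y ^ p) - m) := by
    rw [mul_sub, mul_div_cancel₀ _ hd0]
    ring
  rw [h2, map_mul, ← hvc] at h1
  have h3 : v c * v (c / (t ^ i * y ^ p) - m) < v c * 1 :=
    mul_lt_mul_of_pos_left hm (zero_lt_iff.2 ((Valuation.ne_zero_iff v).2 hc0))
  rw [mul_one] at h3
  exact absurd h1 (not_le.2 h3)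

theorem pbasis (hE : Extremal v) (hU : Unif p v t) [CharP K p] (x : K) :
    ∃ c : Fin p → K, x = ∑ i : Fin p, t ^ (i : ℕ) * c i ^ p := by
  rcases le_total (v x) 1 with hx | hx
  · exact pbasis_int hE hU x hx
  · have hx0 : x ≠ 0 := by
      rintro rfl
      rw [map_zero] at hx
      exact absurd hx (not_le.2 zero_lt_one)
    have h1 : v (x⁻¹ ^ (p - 1)) ≤ 1 := by
      rw [map_pow, map_inv₀]
      exact pow_le_one₀ zero_le (inv_le_one_of_one_le₀ hx)
    obtain ⟨c, hc⟩ := pbasis_int hE hU _ h1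
    refine ⟨fun i => c i * x, ?_⟩
    have h2 : x = x⁻¹ ^ (p - 1) * x ^ p := by
      obtain ⟨k, hk⟩ : ∃ k, p = k + 1 := ⟨p - 1, by have := hp.out.pos; omega⟩
      rw [hk, Nat.add_sub_cancel, pow_succ, ← mul_assoc, ← mul_pow, inv_mul_cancel₀ hx0, one_pow,
        one_mul]
    conv_lhs => rw [h2, hc]
    rw [Finset.sum_mul]
    refine Finset.sum_congr rfl fun i _ => ?_
    rw [mul_pow, mul_assoc]

end Pool.Agent.Helper28.EX
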