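import Pool.Agent.Helper28.EX.PB
import Pool.Agent.Helper28.EX.Lift

/-!
# Strong approximation: approximate zeros are close to zeros
-/

set_option autoImplicit false

universe u w

namespace Pool.Agent.Helper28.EX

open Filter IsLocalRing

variable {K : Type u} {Γ : Type w} [Field K] [LinearOrderedCommGroupWithZero Γ] {v : Valuation K Γ}
  {p : ℕ} [hp : Fact p.Prime] {t : K} {F : Subfield K} {ι : Type u} {φ : Ultrafilter ι}

theorem exists_rep (x : UR v F φ) : ∃ (f : ι → K) (hf : cg φ f ∈ UR v F φ),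
    x = ⟨cg φ f, hf⟩ := by
  obtain ⟨x, hx⟩ := x
  obtain ⟨f, rfl⟩ := cg_surj x
  exact ⟨f, hx, rfl⟩

/-- if `∑ t ^ i * z i ^ p` vanishes in the residue field then so do the `z i` -/
theorem resid_zero (hF : ∃ t ∈ F, t ≠ 0 ∧ v t < 1) (hU : Unif p v t) (htF : t ∈ F)
    (z : Fin p → ResidueField (UR v F φ))
    (hz : ∑ i : Fin p, algebraMap F (ResidueField (UR v F φ)) ⟨t ^ (i : ℕ), F.pow_mem htF _⟩ *
      z i ^ p = 0) : ∀ i, z i = 0 := by
  have hp0 : p ≠ 0 := hp.out.ne_zero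
  have h1 : ∀ i, ∃ (f : ι → K) (hf : cg φ f ∈ UR v F φ),
      z i = residue (UR v F φ) ⟨cg φ f, hf⟩ := by
    intro i
    obtain ⟨x, hx⟩ := residue_surjective (z i)
    obtain ⟨f, hf, rfl⟩ := exists_rep x
    exact ⟨f, hf, hx.symm⟩
  choose f hf hzf using h1
  have h2 : (∑ i : Fin p, algebraMap F (UR v F φ) ⟨t ^ (i : ℕ), F.pow_mem htF _⟩ *
      (⟨cg φ (f i), hf i⟩ : UR v F φ) ^ p) ∈ maximalIdeal (UR v F φ) := by
    rw [← residue_eq_zero_iff, map_sum, ← hz]
    refine Finset.sum_congr rfl fun i _ => ?_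
    rw [map_mul, map_pow, hzf]
    rfl
  have h3 : ((∑ i : Fin p, algebraMap F (UR v F φ) ⟨t ^ (i : ℕ), F.pow_mem htF _⟩ *
      (⟨cg φ (f i), hf i⟩ : UR v F φ) ^ p : UR v F φ) : Germ (φ : Filter ι) K) =
      cg φ (∑ i : Fin p, (fun _ => t ^ (i : ℕ)) * (f i) ^ p) := by
    rw [map_sum]
    have h4 : ((∑ i : Fin p, algebraMap F (UR v F φ) ⟨t ^ (i : ℕ), F.pow_mem htF _⟩ *
      (⟨cg φ (f i), hf i⟩ : UR v F φ) ^ p : UR v F φ) : Germ (φ : Filter ι) K) =
      (UR v F φ).subtype (∑ i : Fin p, algebraMap F (UR v F φ) ⟨t ^ (i : ℕ), F.pow_mem htF _⟩ *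
      (⟨cg φ (f i), hf i⟩ : UR v F φ) ^ p) := rfl
    rw [h4, map_sum]
    refine Finset.sum_congr rfl fun i _ => ?_
    rw [map_mul, map_pow, map_mul, map_pow]
    rfl
  obtain ⟨s, hs⟩ : ∃ s : UR v F φ, s = ∑ i : Fin p, algebraMap F (UR v F φ)
      ⟨t ^ (i : ℕ), F.pow_mem htF _⟩ * (⟨cg φ (f i), hf i⟩ : UR v F φ) ^ p := ⟨_, rfl⟩
  rw [← hs] at h2 h3
  obtain ⟨s, hs'⟩ := s
  have h4 : s = cg φ (∑ i : Fin p, (fun _ => t ^ (i : ℕ)) * (f i) ^ p) := h3
  subst h4
  have h5 := (mem_max hF _ hs').1 h2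
  intro i
  rw [hzf, residue_eq_zero_iff]
  refine (mem_max hF _ (hf i)).2 ?_
  intro c hc hc0
  have h6 := h5 (c ^ p * (t ^ (i : ℕ))⁻¹) (F.mul_mem (F.pow_mem hc _) (F.inv_mem (F.pow_mem htF _)))
    (mul_ne_zero (pow_ne_zero _ hc0) (inv_ne_zero (pow_ne_zero _ hU.t0)))
  filter_upwards [h6] with k h7
  have h8 : (∑ i : Fin p, (fun _ : ι => t ^ (i : ℕ)) * (f i) ^ p) k =
      ∑ i : Fin p, t ^ (i : ℕ) * (f i k) ^ p := by
    rw [Finset.sum_apply]
    rfl
  rw [h8] at h7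
  have h9 := val_sum hU (fun i => f i k) i
  have h10 : v (c * f i k) ^ p ≤ 1 := by
    calc v (c * f i k) ^ p = v (c ^ p * (t ^ (i : ℕ))⁻¹) * v (t ^ (i : ℕ) * (f i k) ^ p) := by
          rw [← map_pow, ← map_mul]
          congr 1
          rw [mul_pow, mul_assoc, inv_mul_cancel_left₀ (pow_ne_zero _ hU.t0)]
      _ ≤ v (c ^ p * (t ^ (i : ℕ))⁻¹) * v (∑ i : Fin p, t ^ (i : ℕ) * (f i k) ^ p) :=
          mul_le_mul_right h9 _
      _ ≤ 1 := by
          rw [← map_mul]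
          exact h7
  by_contra h11
  exact absurd h10 (not_le.2 (one_lt_pow₀ (not_le.1 h11) hp0))

/-- the residue field is separable over `F` -/
theorem maclane (hF : ∃ t ∈ F, t ≠ 0 ∧ v t < 1) (hU : Unif p v t) [CharP K p] (htF : t ∈ F)
    (hFb : ∀ x ∈ F, ∃ c : Fin p → K, (∀ i, c i ∈ F) ∧ x = ∑ i : Fin p, t ^ (i : ℕ) * c i ^ p)
    (s : Finset (ResidueField (UR v F φ)))
    (hs : LinearIndepOn F id (s : Set (ResidueField (UR v F φ)))) :
    LinearIndepOn F (· ^ p) (s : Set (ResidueField (UR v F φ))) := by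
  classical
  have hp0 : p ≠ 0 := hp.out.ne_zero
  have : CharP F p := (RingHom.charP_iff F.subtype F.subtype.injective p).2 inferInstance
  have : CharP (ResidueField (UR v F φ)) p :=
    (RingHom.charP_iff (algebraMap F _) (algebraMap F _).injective p).1 inferInstance
  rw [linearIndepOn_finset_iff] at hs ⊢
  intro g hg
  have h1 : ∀ x, ∃ c : Fin p → F, g x = ∑ i : Fin p, ⟨t ^ (i : ℕ), F.pow_mem htF _⟩ * c i ^ p := by
    intro x
    obtain ⟨c, hc, hx⟩ := hFb (g x) (g x).2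
    refine ⟨fun i => ⟨c i, hc i⟩, Subtype.ext ?_⟩
    rw [hx]
    push_cast
    rfl
  choose c hc using h1
  have h2 := resid_zero (φ := φ) hF hU htF (fun i => ∑ x ∈ s, c x i • x) (by
    have h3 : ∀ i : Fin p, (∑ x ∈ s, c x i • x) ^ p = ∑ x ∈ s, algebraMap F _ (c x i) ^ p * x ^ p := by
      intro i
      rw [sum_pow_char]
      refine Finset.sum_congr rfl fun x _ => ?_
      rw [Algebra.smul_def, mul_pow]
    rw [← hg]
    simp only [h3, Finset.mul_sum]
    rw [Finset.sum_comm]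
    refine Finset.sum_congr rfl fun x _ => ?_
    rw [hc x, Algebra.smul_def, map_sum, Finset.sum_mul]
    refine Finset.sum_congr rfl fun i _ => ?_
    rw [map_mul, map_pow, mul_assoc])
  intro x hx
  have h3 : ∀ i, c x i = 0 := fun i => hs (fun x => c x i) (h2 i) x hx
  rw [hc x]
  refine Finset.sum_eq_zero fun i _ => ?_
  rw [h3, zero_pow hp0, mul_zero]

theorem mv_cg {n : ℕ} (h : MvPolynomial (Fin n) F) (b : Fin n → ι → K) (i : ι) :
    (MvPolynomial.eval₂ ((Pi.constRingHom ι K).comp F.subtype) b h) i =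
      MvPolynomial.aeval (fun k => b k i) h := by
  have h1 : (Pi.evalRingHom (fun _ => K) i) (MvPolynomial.eval₂
      ((Pi.constRingHom ι K).comp F.subtype) b h) = _ := MvPolynomial.map_eval₂Hom
        ((Pi.constRingHom ι K).comp F.subtype) b (Pi.evalRingHom (fun _ => K) i) h
  exact h1

theorem mv_emb {n : ℕ} (h : MvPolynomial (Fin n) F) (b : Fin n → ι → K)
    (hb : ∀ k, cg φ (b k) ∈ UR v F φ) :
    ((MvPolynomial.aeval (fun k => (⟨cg φ (b k), hb k⟩ : UR v F φ)) h : UR v F φ) :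
      Germ (φ : Filter ι) K) = cg φ (fun i => MvPolynomial.aeval (fun k => b k i) h) := by
  have h1 : (UR v F φ).subtype (MvPolynomial.aeval (fun k => (⟨cg φ (b k), hb k⟩ : UR v F φ)) h) =
      _ := MvPolynomial.map_eval₂Hom (algebraMap F (UR v F φ))
        (fun k => (⟨cg φ (b k), hb k⟩ : UR v F φ)) (UR v F φ).subtype h
  have h2 : cg φ (MvPolynomial.eval₂ ((Pi.constRingHom ι K).comp F.subtype) b h) =
      _ := MvPolynomial.map_eval₂Hom ((Pi.constRingHom ι K).comp F.subtype) b (cg φ) h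
  have h3 : (fun i => MvPolynomial.aeval (fun k => b k i) h) =
      MvPolynomial.eval₂ ((Pi.constRingHom ι K).comp F.subtype) b h :=
    funext fun i => (mv_cg h b i).symm
  rw [h3, h2]
  exact h1

/-- **Strong approximation.** -/
theorem sap (hH : Hens v) (hU : Unif p v t) [CharP K p] (htF : t ∈ F)
    (hFb : ∀ x ∈ F, ∃ c : Fin p → K, (∀ i, c i ∈ F) ∧ x = ∑ i : Fin p, t ^ (i : ℕ) * c i ^ p)
    {n : ℕ} {κ : Type} [Finite κ] (h : κ → MvPolynomial (Fin n) F) (B : K) (hB : B ∈ F)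
    (hB0 : B ≠ 0) (hB1 : v B ≤ 1) :
    ∃ α ∈ F, α ≠ 0 ∧ ∀ a : Fin n → K, (∀ i, v (a i) ≤ 1) →
      (∀ j, v (MvPolynomial.aeval a (h j)) ≤ v α) →
      ∃ a' : Fin n → K, (∀ i, v (a' i) ≤ 1) ∧ (∀ j, MvPolynomial.aeval a' (h j) = 0) ∧
        ∀ i, v (a' i - a i) ≤ v B := by
  classical
  by_contra hcon
  push Not at hcon
  let I := {α : K // α ∈ F ∧ α ≠ 0}
  have hI : ∀ α : I, ∃ a : Fin n → K, (∀ i, v (a i) ≤ 1) ∧
      (∀ j, v (MvPolynomial.aeval a (h j)) ≤ v α) ∧ ∀ a' : Fin n → K, (∀ i, v (a' i) ≤ 1) →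
      (∀ j, MvPolynomial.aeval a' (h j) = 0) → ∃ i, v B < v (a' i - a i) :=
    fun α => hcon α.1 α.2.1 α.2.2
  choose a ha1 hah haB using hI
  have hF : ∃ t ∈ F, t ≠ 0 ∧ v t < 1 := ⟨t, htF, hU.t0, hU.t1⟩
  let S : I → Filter I := fun c => 𝓟 {α | v (α : K) ≤ v (c : K)}
  have : Nonempty I := ⟨⟨1, F.one_mem, one_ne_zero⟩⟩
  have hne : (⨅ c, S c).NeBot := by
    apply iInf_neBot_of_directed
    · intro c d
      rcases le_total (v (c : K)) (v (d : K)) with h1 | h1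
      · exact ⟨c, le_rfl, principal_mono.2 fun α hα => hα.trans h1⟩
      · exact ⟨d, principal_mono.2 fun α hα => hα.trans h1, le_rfl⟩
    · intro c
      exact principal_neBot_iff.2 ⟨c, le_rfl⟩
  let φ : Ultrafilter I := Ultrafilter.of (⨅ c, S c)
  have hφ : ∀ c : I, ∀ᶠ α : I in (φ : Filter I), v (α : K) ≤ v (c : K) := by
    intro c
    have h1 : (φ : Filter I) ≤ S c := (Ultrafilter.of_le _).trans (iInf_le S c)
    exact h1 (mem_principal_self _)
  have : HenselianLocalRing (UR v F φ) := henselian_UR hF hH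
  have : CharP F p := (RingHom.charP_iff F.subtype F.subtype.injective p).2 inferInstance
  let A : Fin n → I → K := fun i α => a α i
  have hA : ∀ i, cg φ (A i) ∈ UR v F φ := fun i =>
    ⟨1, F.one_mem, one_ne_zero, Eventually.of_forall fun α => by
      rw [one_mul]
      exact ha1 α i⟩
  obtain ⟨b, hb1, hb2⟩ := lift_points (F := F) (R := UR v F φ) p hp.out
    (maclane hF hU htF hFb) (fun i => residue (UR v F φ) ⟨cg φ (A i), hA i⟩)
  choose b' hb' hbb using fun i => exists_rep (b i)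
  obtain rfl : b = fun i => ⟨cg φ (b' i), hb' i⟩ := funext hbb
  -- the approximate zeros are zeros in the residue field
  have h1 : ∀ j, MvPolynomial.aeval (fun i => residue (UR v F φ) ⟨cg φ (A i), hA i⟩) (h j) = 0 := by
    intro j
    have h2 : MvPolynomial.aeval (fun i => residue (UR v F φ) ⟨cg φ (A i), hA i⟩) (h j) =
        residue (UR v F φ) (MvPolynomial.aeval (fun i => (⟨cg φ (A i), hA i⟩ : UR v F φ)) (h j)) :=
      (MvPolynomial.map_eval₂Hom (algebraMap F (UR v F φ))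
        (fun k => (⟨cg φ (A k), hA k⟩ : UR v F φ)) (residue (UR v F φ)) (h j)).symm
    rw [h2, residue_eq_zero_iff]
    have h3 := mv_emb (φ := φ) (h j) A hA
    obtain ⟨w, hw⟩ : ∃ w, w = MvPolynomial.aeval (fun i => (⟨cg φ (A i), hA i⟩ : UR v F φ)) (h j) :=
      ⟨_, rfl⟩
    rw [← hw] at h3 ⊢
    obtain ⟨w, hw'⟩ := w
    have h4 : w = cg φ (fun α => MvPolynomial.aeval (a α) (h j)) := h3
    subst h4
    refine (mem_max hF _ hw').2 fun c hc hc0 => ?_
    filter_upwards [hφ ⟨c⁻¹, F.inv_mem hc, inv_ne_zero hc0⟩] with α h5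
    have h6 : v (MvPolynomial.aeval (a α) (h j)) ≤ v c⁻¹ := (hah α j).trans h5
    rw [map_mul]
    calc _ ≤ v c * v c⁻¹ := mul_le_mul_right h6 _
      _ = 1 := by rw [← map_mul, mul_inv_cancel₀ hc0, map_one]
  have h2 : ∀ j, ∀ᶠ α in (φ : Filter I), MvPolynomial.aeval (fun k => b' k α) (h j) = 0 := by
    intro j
    have h3 := hb2 (h j) (h1 j)
    have h4 := mv_emb (φ := φ) (h j) b' hb'
    rw [h3] at h4
    exact (Germ.coe_eq.1 h4).mono fun α h5 => h5.symm
  have h3 : ∀ i, ∀ᶠ α in (φ : Filter I), v (b' i α - a α i) ≤ v B := by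
    intro i
    have h4 := hb1 i
    rw [← sub_eq_zero, ← map_sub, residue_eq_zero_iff] at h4
    have h5 := (mem_max hF (b' i - A i) ((UR v F φ).sub_mem (hb' i) (hA i))).1 h4 B⁻¹
      (F.inv_mem hB) (inv_ne_zero hB0)
    filter_upwards [h5] with α h6
    rw [map_mul, map_inv₀, inv_mul_le_iff₀ (zero_lt_iff.2 ((Valuation.ne_zero_iff v).2 hB0)),
      mul_one] at h6
    exact h6
  obtain ⟨α, h4, h5⟩ := ((eventually_all.2 h2).and (eventually_all.2 h3)).exists
  obtain ⟨i, h6⟩ := haB α (fun k => b' k α) (fun i => by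
    have h7 : b' i α = (b' i α - a α i) + a α i := by ring
    rw [h7]
    exact (v.map_add _ _).trans (max_le ((h5 i).trans hB1) (ha1 α i))) h4
  exact absurd (h5 i) (not_le.2 h6)

end Pool.Agent.Helper28.EX
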