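import Pool.Agent.Helper28.EX.Ultra

/-!
# A coarsening of an ultrapower of a valued field is henselian, continued
-/

set_option autoImplicit false

universe u w

namespace Pool.Agent.Helper28.EX

open Filter IsLocalRing Polynomial

variable {K : Type u} {Γ : Type w} [Field K] [LinearOrderedCommGroupWithZero Γ] {v : Valuation K Γ}
  {F : Subfield K} {ι : Type u} {φ : Ultrafilter ι}

theorem cg_surj (x : Germ (φ : Filter ι) K) : ∃ f : ι → K, cg φ f = x := by
  induction x using Germ.inductionOn with | _ x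
  exact ⟨x, rfl⟩

theorem eval_pt (Φ : (ι → K)[X]) (b : ι → K) (i : ι) :
    (Φ.eval b) i = (Φ.map (Pi.evalRingHom (fun _ => K) i)).eval (b i) :=
  ((Polynomial.eval_map _ _).trans
    (Polynomial.eval₂_at_apply (Pi.evalRingHom (fun _ : ι => K) i) b)).symm

theorem eval_cg (Φ : (ι → K)[X]) (b : ι → K) :
    (Φ.map (cg φ)).eval (cg φ b) = cg φ (Φ.eval b) :=
  (Polynomial.eval_map _ _).trans (Polynomial.eval₂_at_apply (cg φ) b)

theorem common_bound (T : ℕ → ι → K) (hT : ∀ k, cg φ (T k) ∈ UR v F φ) (N : ℕ) :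
    ∃ c ∈ F, c ≠ 0 ∧ v c ≤ 1 ∧ ∀ k ≤ N, ∀ᶠ i in (φ : Filter ι), v (c * T k i) ≤ 1 := by
  have key : ∀ k (c : K), c ∈ F → c ≠ 0 → v c ≤ 1 → ∃ d ∈ F, d ≠ 0 ∧ v d ≤ v c ∧
      ∀ᶠ i in (φ : Filter ι), v (d * T k i) ≤ 1 := by
    intro k c hc hc0 _
    obtain ⟨e, he, he0, heT⟩ := hT k
    have heT' : ∀ᶠ i in (φ : Filter ι), v (e * T k i) ≤ 1 := heT
    rcases le_total (v c) (v e) with h | h
    · refine ⟨c, hc, hc0, le_rfl, ?_⟩
      filter_upwards [heT'] with i h1
      rw [map_mul] at h1 ⊢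
      exact (mul_le_mul_left h _).trans h1
    · exact ⟨e, he, he0, h, heT'⟩
  induction N with
  | zero =>
    obtain ⟨d, hd, hd0, hd1, hdT⟩ := key 0 1 F.one_mem one_ne_zero (by rw [map_one])
    rw [map_one] at hd1
    refine ⟨d, hd, hd0, hd1, fun k hk => ?_⟩
    rw [Nat.le_zero.1 hk]
    exact hdT
  | succ N ih =>
    obtain ⟨c, hc, hc0, hc1, hcT⟩ := ih
    obtain ⟨d, hd, hd0, hd1, hdT⟩ := key (N + 1) c hc hc0 hc1
    refine ⟨d, hd, hd0, hd1.trans hc1, fun k hk => ?_⟩
    rcases Nat.lt_or_ge N k with h | h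
    · rw [show k = N + 1 by omega]
      exact hdT
    · filter_upwards [hcT k h] with i h1
      rw [map_mul] at h1 ⊢
      exact (mul_le_mul_left hd1 _).trans h1

theorem henselian_UR (hF : ∃ t ∈ F, t ≠ 0 ∧ v t < 1) (hH : Hens v) :
    HenselianLocalRing (UR v F φ) := by
  classical
  refine { toIsLocalRing := inferInstance, is_henselian := ?_ }
  intro f _ a0 h1 h2
  obtain ⟨Φ, hΦ⟩ := Polynomial.map_surjective (cg φ) (fun x => cg_surj x)
    (f.map (UR v F φ).subtype)
  obtain ⟨a, ha⟩ := cg_surj (φ := φ) (a0 : Germ (φ : Filter ι) K)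
  obtain ⟨t, htF, ht0, ht1⟩ := id hF
  -- evaluation
  have hev : ∀ g : (UR v F φ)[X], ∀ Ψ : (ι → K)[X], Ψ.map (cg φ) = g.map (UR v F φ).subtype →
      cg φ (Ψ.eval a) = ((g.eval a0 : UR v F φ) : Germ (φ : Filter ι) K) := by
    intro g Ψ h
    rw [← eval_cg, h, ha]
    exact (Polynomial.eval_map _ _).trans (Polynomial.eval₂_at_apply (UR v F φ).subtype a0)
  have hE := hev f Φ hΦ
  have hU := hev f.derivative Φ.derivative (by
    rw [← Polynomial.derivative_map, ← Polynomial.derivative_map, hΦ])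
  have hT : ∀ k, cg φ ((Polynomial.taylor a Φ).coeff k) ∈ UR v F φ := by
    intro k
    have h3 : (Polynomial.taylor a Φ).map (cg φ) =
        (Polynomial.taylor a0 f).map (UR v F φ).subtype := by
      rw [Polynomial.map_taylor, Polynomial.map_taylor, hΦ, ha]
      rfl
    have h4 := congrArg (fun P => P.coeff k) h3
    simp only [Polynomial.coeff_map] at h4
    rw [h4]
    exact ((Polynomial.taylor a0 f).coeff k).2
  -- the value is infinitely small
  have hEm : ∀ c ∈ F, c ≠ 0 → ∀ᶠ i in (φ : Filter ι), v (c * (Φ.eval a) i) ≤ 1 := by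
    have h3 : (⟨cg φ (Φ.eval a), by rw [hE]; exact (f.eval a0).2⟩ : UR v F φ) ∈
        maximalIdeal (UR v F φ) := by
      have h4 : (⟨cg φ (Φ.eval a), by rw [hE]; exact (f.eval a0).2⟩ : UR v F φ) = f.eval a0 :=
        Subtype.ext hE
      rw [h4]
      exact h1
    exact (mem_max hF _ _).1 h3
  -- the derivative is a unit
  obtain ⟨c1, hc1, hc10, hc11, hc1U⟩ : ∃ c ∈ F, c ≠ 0 ∧ v c ≤ 1 ∧
      ∀ᶠ i in (φ : Filter ι), v c ≤ v ((Φ.derivative.eval a) i) := by
    obtain ⟨⟨w, hw⟩, hUw⟩ := h2.exists_right_inv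
    obtain ⟨w, rfl⟩ := cg_surj w
    have h3 : cg φ (Φ.derivative.eval a * w) = cg φ 1 := by
      rw [map_mul, hU, map_one]
      exact congrArg Subtype.val hUw
    have h4 : ∀ᶠ i in (φ : Filter ι), (Φ.derivative.eval a) i * w i = 1 := Germ.coe_eq.1 h3
    obtain ⟨c, hc, hc0, hc1, hcw⟩ := common_bound (v := v) (F := F) (fun _ => w) (fun _ => hw) 0
    refine ⟨c, hc, hc0, hc1, ?_⟩
    filter_upwards [h4, hcw 0 le_rfl] with i h5 h6
    have h7 : v c = v (c * w i) * v ((Φ.derivative.eval a) i) := by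
      rw [← map_mul, mul_assoc, mul_comm (w i), h5, mul_one]
    rw [h7]
    calc _ ≤ 1 * v ((Φ.derivative.eval a) i) := mul_le_mul_left h6 _
      _ = _ := one_mul _
  obtain ⟨c2, hc2, hc20, hc21, hc2T⟩ := common_bound (v := v) (F := F)
    (fun k => (Polynomial.taylor a Φ).coeff k) hT Φ.natDegree
  set η := t * c1 * c2 with hη
  have hη0 : η ≠ 0 := mul_ne_zero (mul_ne_zero ht0 hc10) hc20
  have hηF : η ∈ F := F.mul_mem (F.mul_mem htF hc1) hc2
  have hη1 : v η ≤ 1 := by
    rw [hη, map_mul, map_mul]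
    exact mul_le_one' (mul_le_one' ht1.le hc11) hc21
  have hvη : 0 < v η := zero_lt_iff.2 ((Valuation.ne_zero_iff v).2 hη0)
  have hvc1 : 0 < v c1 := zero_lt_iff.2 ((Valuation.ne_zero_iff v).2 hc10)
  -- the roots
  have hroot : ∀ᶠ i in (φ : Filter ι), ∃ b, (Φ.map (Pi.evalRingHom (fun _ => K) i)).eval b = 0 ∧
      v (b - a i) * v ((Φ.derivative.eval a) i) ≤ v ((Φ.eval a) i) := by
    have h3 := hEm (t * η * c1)⁻¹ (F.inv_mem (F.mul_mem (F.mul_mem htF hηF) hc1))
      (inv_ne_zero (mul_ne_zero (mul_ne_zero ht0 hη0) hc10))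
    have h4 : ∀ᶠ i in (φ : Filter ι), ∀ k ∈ Set.Iic Φ.natDegree,
        v (c2 * ((Polynomial.taylor a Φ).coeff k) i) ≤ 1 :=
      (Set.finite_Iic _).eventually_all.2 hc2T
    filter_upwards [h3, hc1U, h4] with i h5 h6 h7
    have h8 : (Φ.derivative.eval a) i =
        (Φ.map (Pi.evalRingHom (fun _ => K) i)).derivative.eval (a i) := by
      rw [eval_pt, Polynomial.derivative_map]
    have h9 : (Φ.eval a) i = (Φ.map (Pi.evalRingHom (fun _ => K) i)).eval (a i) := eval_pt _ _ _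
    have h10 : ∀ k, ((Polynomial.taylor a Φ).coeff k) i =
        (Polynomial.taylor (a i) (Φ.map (Pi.evalRingHom (fun _ => K) i))).coeff k := by
      intro k
      have h11 := Polynomial.map_taylor Φ a (Pi.evalRingHom (fun _ : ι => K) i)
      have h12 := congrArg (fun P => P.coeff k) h11
      simp only [Polynomial.coeff_map] at h12
      exact h12
    have hlt : v (t * η * c1) < v (η * (Φ.derivative.eval a) i) := by
      calc v (t * η * c1) = v t * v η * v c1 := by rw [map_mul, map_mul]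
        _ < 1 * v η * v c1 :=
            mul_lt_mul_of_pos_right (mul_lt_mul_of_pos_right ht1 hvη) hvc1
        _ = v η * v c1 := by rw [one_mul]
        _ ≤ v η * v ((Φ.derivative.eval a) i) := mul_le_mul_right h6 _
        _ = _ := (map_mul v _ _).symm
    rw [h8, h9]
    rw [h8] at hlt
    refine newton hH _ (a i) η hη0 ?_ ?_
    · rw [← h9]
      refine lt_of_le_of_lt ?_ hlt
      rw [map_mul, map_inv₀, inv_mul_le_iff₀ (zero_lt_iff.2 ((Valuation.ne_zero_iff v).2
        (mul_ne_zero (mul_ne_zero ht0 hη0) hc10))), mul_one] at h5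
      exact h5
    · intro k hk
      rw [← h10]
      rcases Nat.lt_or_ge Φ.natDegree k with h | h
      · have h11 : (Polynomial.taylor a Φ).coeff k = 0 := by
          apply Polynomial.coeff_eq_zero_of_natDegree_lt
          rwa [Polynomial.natDegree_taylor]
        rw [h11, Pi.zero_apply, mul_zero, map_zero]
        exact lt_of_le_of_lt zero_le hlt
      · refine lt_of_le_of_lt ?_ hlt
        obtain ⟨m, rfl⟩ : ∃ m, k = m + 2 := ⟨k - 2, by omega⟩
        have h11 : η ^ (m + 2) * ((Polynomial.taylor a Φ).coeff (m + 2)) i =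
            η ^ m * (c2 * ((Polynomial.taylor a Φ).coeff (m + 2)) i) * (t * η * c1) := by
          rw [hη]
          ring
        rw [h11, map_mul, map_mul, map_pow]
        calc _ ≤ 1 * 1 * v (t * η * c1) :=
              mul_le_mul_left (mul_le_mul' (pow_le_one₀ zero_le hη1) (h7 _ h)) _
          _ = _ := by rw [one_mul, one_mul]
  let b : ι → K := fun i => if h : ∃ b, (Φ.map (Pi.evalRingHom (fun _ => K) i)).eval b = 0 ∧
      v (b - a i) * v ((Φ.derivative.eval a) i) ≤ v ((Φ.eval a) i) then h.choose else a i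
  have hb : ∀ᶠ i in (φ : Filter ι), (Φ.map (Pi.evalRingHom (fun _ => K) i)).eval (b i) = 0 ∧
      v (b i - a i) * v ((Φ.derivative.eval a) i) ≤ v ((Φ.eval a) i) := by
    filter_upwards [hroot] with i h
    have h3 : b i = h.choose := dif_pos h
    rw [h3]
    exact h.choose_spec
  have hba : ∀ c ∈ F, c ≠ 0 → ∀ᶠ i in (φ : Filter ι), v (c * (b - a) i) ≤ 1 := by
    intro c hc hc0
    filter_upwards [hb, hc1U, hEm (c * c1⁻¹) (F.mul_mem hc (F.inv_mem hc1))
      (mul_ne_zero hc0 (inv_ne_zero hc10))] with i h3 h4 h5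
    have h6 : v (b i - a i) * v c1 ≤ v ((Φ.eval a) i) := (mul_le_mul_right h4 _).trans h3.2
    have h7 : v (c * (b - a) i) * v c1 ≤ 1 * v c1 := by
      rw [one_mul, map_mul, mul_assoc]
      calc v c * (v ((b - a) i) * v c1) ≤ v c * v ((Φ.eval a) i) := mul_le_mul_right h6 _
        _ = v (c * c1⁻¹ * (Φ.eval a) i) * v c1 := by
          rw [← map_mul, ← map_mul]
          congr 1
          field_simp
        _ ≤ 1 * v c1 := mul_le_mul_left h5 _
        _ = v c1 := one_mul _
    exact le_of_mul_le_mul_right h7 hvc1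
  have hbaR : cg φ (b - a) ∈ UR v F φ := ⟨1, F.one_mem, one_ne_zero, hba 1 F.one_mem one_ne_zero⟩
  have hbam : (⟨cg φ (b - a), hbaR⟩ : UR v F φ) ∈ maximalIdeal (UR v F φ) :=
    (mem_max hF _ _).2 hba
  have hbR : cg φ b ∈ UR v F φ := by
    have h3 := (UR v F φ).add_mem _ _ a0.2 hbaR
    rw [← ha, ← map_add, add_sub_cancel] at h3
    exact h3
  have hbeq : a0 + ⟨cg φ (b - a), hbaR⟩ = (⟨cg φ b, hbR⟩ : UR v F φ) := by
    apply Subtype.ext
    change (a0 : Germ (φ : Filter ι) K) + cg φ (b - a) = cg φ b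
    rw [← ha, ← map_add, add_sub_cancel]
  refine ⟨a0 + ⟨cg φ (b - a), hbaR⟩, ?_, ?_⟩
  · rw [hbeq]
    apply Subtype.ext
    have h3 : (((f.eval (⟨cg φ b, hbR⟩ : UR v F φ)) : UR v F φ) : Germ (φ : Filter ι) K) =
        (f.map (UR v F φ).subtype).eval (cg φ b) :=
      ((Polynomial.eval_map _ _).trans
        (Polynomial.eval₂_at_apply (UR v F φ).subtype ⟨cg φ b, hbR⟩)).symm
    refine h3.trans ?_
    rw [← hΦ, eval_cg]
    change cg φ (Φ.eval b) = cg φ 0
    apply Germ.coe_eq.2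
    filter_upwards [hb] with i h4
    rw [eval_pt]
    exact h4.1
  · rw [add_sub_cancel_left]
    exact hbam

end Pool.Agent.Helper28.EX
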