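import Pool.Agent.Helper28.EX.Hens

/-!
# A coarsening of an ultrapower of a valued field is henselian
-/

set_option autoImplicit false

universe u w

namespace Pool.Agent.Helper28.EX

open Filter IsLocalRing

variable {K : Type u} {Γ : Type w} [Field K] [LinearOrderedCommGroupWithZero Γ]

/-- the elements of the ultrapower which are bounded by elements of the subfield `F` -/
def UR (v : Valuation K Γ) (F : Subfield K) {ι : Type u} (φ : Ultrafilter ι) :
    ValuationSubring (Germ (φ : Filter ι) K) where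
  carrier := {x | ∃ c ∈ F, c ≠ 0 ∧ x.LiftPred fun y => v (c * y) ≤ 1}
  mul_mem' := by
    rintro x y ⟨c, hc, hc0, hx⟩ ⟨d, hd, hd0, hy⟩
    induction x using Germ.inductionOn with | _ x
    induction y using Germ.inductionOn with | _ y
    refine ⟨c * d, F.mul_mem hc hd, mul_ne_zero hc0 hd0, ?_⟩
    have hx' : ∀ᶠ i in (φ : Filter ι), v (c * x i) ≤ 1 := hx
    have hy' : ∀ᶠ i in (φ : Filter ι), v (d * y i) ≤ 1 := hy
    change ∀ᶠ i in (φ : Filter ι), v (c * d * (x i * y i)) ≤ 1
    filter_upwards [hx', hy'] with i h1 h2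
    have h3 : c * d * (x i * y i) = (c * x i) * (d * y i) := by ring
    rw [h3, map_mul]
    exact mul_le_one' h1 h2
  one_mem' := ⟨1, F.one_mem, one_ne_zero, Eventually.of_forall fun i => by simp⟩
  zero_mem' := ⟨1, F.one_mem, one_ne_zero, Eventually.of_forall fun i => by simp⟩
  add_mem' := by
    rintro x y ⟨c, hc, hc0, hx⟩ ⟨d, hd, hd0, hy⟩
    induction x using Germ.inductionOn with | _ x
    induction y using Germ.inductionOn with | _ y
    have hx' : ∀ᶠ i in (φ : Filter ι), v (c * x i) ≤ 1 := hx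
    have hy' : ∀ᶠ i in (φ : Filter ι), v (d * y i) ≤ 1 := hy
    have key : ∀ e ∈ F, e ≠ 0 → v e ≤ v c → v e ≤ v d → ∃ c ∈ F, c ≠ 0 ∧
        ∀ᶠ i in (φ : Filter ι), v (c * (x i + y i)) ≤ 1 := by
      intro e he he0 h1 h2
      refine ⟨e, he, he0, ?_⟩
      filter_upwards [hx', hy'] with i h3 h4
      rw [mul_add]
      refine (v.map_add _ _).trans (max_le ?_ ?_)
      · rw [map_mul] at h3 ⊢
        exact (mul_le_mul_left h1 _).trans h3
      · rw [map_mul] at h4 ⊢
        exact (mul_le_mul_left h2 _).trans h4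
    rcases le_total (v c) (v d) with h | h
    · exact key c hc hc0 le_rfl h
    · exact key d hd hd0 h le_rfl
  neg_mem' := by
    rintro x ⟨c, hc, hc0, hx⟩
    induction x using Germ.inductionOn with | _ x
    refine ⟨c, hc, hc0, ?_⟩
    have hx' : ∀ᶠ i in (φ : Filter ι), v (c * x i) ≤ 1 := hx
    change ∀ᶠ i in (φ : Filter ι), v (c * -x i) ≤ 1
    filter_upwards [hx'] with i h1
    rw [mul_neg, Valuation.map_neg]
    exact h1
  mem_or_inv_mem' := by
    intro x
    induction x using Germ.inductionOn with | _ x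
    have h1 : ∀ᶠ i in (φ : Filter ι), v (x i) ≤ 1 ∨ v (x i)⁻¹ ≤ 1 := by
      refine Eventually.of_forall fun i => ?_
      rcases le_total (v (x i)) 1 with h | h
      · exact Or.inl h
      · right
        rw [map_inv₀]
        exact inv_le_one_of_one_le₀ h
    rw [Ultrafilter.eventually_or] at h1
    rcases h1 with h1 | h1
    · left
      refine ⟨1, F.one_mem, one_ne_zero, ?_⟩
      change ∀ᶠ i in (φ : Filter ι), v (1 * x i) ≤ 1
      filter_upwards [h1] with i h2
      rwa [one_mul]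
    · right
      refine ⟨1, F.one_mem, one_ne_zero, ?_⟩
      change ∀ᶠ i in (φ : Filter ι), v (1 * (x i)⁻¹) ≤ 1
      filter_upwards [h1] with i h2
      rwa [one_mul]

variable {v : Valuation K Γ} {F : Subfield K} {ι : Type u} {φ : Ultrafilter ι}

theorem mem_UR (x : ι → K) : ((x : Germ (φ : Filter ι) K) ∈ UR v F φ) ↔
    ∃ c ∈ F, c ≠ 0 ∧ ∀ᶠ i in (φ : Filter ι), v (c * x i) ≤ 1 := Iff.rfl

/-- functions to germs -/
abbrev cg (φ : Ultrafilter ι) : (ι → K) →+* Germ (φ : Filter ι) K := Germ.coeRingHom (φ : Filter ι)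

/-- constants to germs -/
def cst (φ : Ultrafilter ι) : K →+* Germ (φ : Filter ι) K := (cg φ).comp (Pi.constRingHom ι K)

theorem cst_mem {c : K} (hc : c ∈ F) : cst φ c ∈ UR v F φ := by
  rcases eq_or_ne c 0 with rfl | h0
  · rw [map_zero]
    exact zero_mem _
  · refine ⟨c⁻¹, F.inv_mem hc, inv_ne_zero h0, Eventually.of_forall fun i => ?_⟩
    change v (c⁻¹ * c) ≤ 1
    rw [inv_mul_cancel₀ h0, map_one]

/-- the field `F` in the ring -/
def emb (v : Valuation K Γ) (F : Subfield K) (φ : Ultrafilter ι) : F →+* UR v F φ :=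
  ((cst φ).comp F.subtype).codRestrict (UR v F φ).toSubring fun c => cst_mem c.2

instance : Algebra F (UR v F φ) := (emb v F φ).toAlgebra

theorem mem_max (hF : ∃ t ∈ F, t ≠ 0 ∧ v t < 1) (x : ι → K)
    (hx : (x : Germ (φ : Filter ι) K) ∈ UR v F φ) :
    (⟨x, hx⟩ : UR v F φ) ∈ maximalIdeal (UR v F φ) ↔
      ∀ c ∈ F, c ≠ 0 → ∀ᶠ i in (φ : Filter ι), v (c * x i) ≤ 1 := by
  obtain ⟨t, htF, ht0, ht1⟩ := hF
  constructor
  · intro h c hc hc0
    by_contra hn
    rw [← Ultrafilter.eventually_not] at hn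
    have hx0 : ∀ᶠ i in (φ : Filter ι), x i ≠ 0 := by
      filter_upwards [hn] with i h1 h2
      apply h1
      rw [h2, mul_zero, map_zero]
      exact zero_le_one
    have hinv : ((fun i => (x i)⁻¹ : ι → K) : Germ (φ : Filter ι) K) ∈ UR v F φ := by
      rw [mem_UR]
      refine ⟨c⁻¹, F.inv_mem hc, inv_ne_zero hc0, ?_⟩
      filter_upwards [hn] with i h1
      rw [← mul_inv, map_inv₀]
      exact inv_le_one_of_one_le₀ (not_le.1 h1).le
    rw [mem_maximalIdeal, mem_nonunits_iff] at h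
    apply h
    refine IsUnit.of_mul_eq_one ⟨_, hinv⟩ (Subtype.ext ?_)
    change (x : Germ (φ : Filter ι) K) * ((fun i => (x i)⁻¹ : ι → K) : Germ (φ : Filter ι) K) = 1
    apply Germ.coe_eq.2
    filter_upwards [hx0] with i h1
    exact mul_inv_cancel₀ h1
  · intro h
    rw [mem_maximalIdeal, mem_nonunits_iff]
    intro hu
    obtain ⟨⟨y, hy⟩, hxy⟩ := hu.exists_right_inv
    induction y using Germ.inductionOn with | _ y
    obtain ⟨c, hc, hc0, hcy⟩ := hy
    have hcy' : ∀ᶠ i in (φ : Filter ι), v (c * y i) ≤ 1 := hcy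
    have h2 := h (t * c)⁻¹ (F.inv_mem (F.mul_mem htF hc)) (inv_ne_zero (mul_ne_zero ht0 hc0))
    have h3 : ((x * y : ι → K) : Germ (φ : Filter ι) K) = ((1 : ι → K) : Germ (φ : Filter ι) K) :=
      congrArg Subtype.val hxy
    have h4 : ∀ᶠ i in (φ : Filter ι), x i * y i = 1 := Germ.coe_eq.1 h3
    obtain ⟨i, h5, h6, h7⟩ := (hcy'.and (h2.and h4)).exists
    have h8 : v (t⁻¹) ≤ 1 := by
      have h9 : t⁻¹ = (t * c)⁻¹ * x i * (c * y i) := by
        have h10 : (t * c)⁻¹ * x i * (c * y i) = (t * c)⁻¹ * c * (x i * y i) := by ring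
        rw [h10, h7, mul_one, mul_inv, mul_assoc, inv_mul_cancel₀ hc0, mul_one]
      rw [h9, map_mul]
      exact mul_le_one' h6 h5
    rw [map_inv₀] at h8
    have h11 : 1 < (v t)⁻¹ := (one_lt_inv₀ (zero_lt_iff.2 ((Valuation.ne_zero_iff v).2 ht0))).2 ht1
    exact absurd h8 (not_le.2 h11)

end Pool.Agent.Helper28.EX
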